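import Pool.Agent.Lib.MP_557161_ag.DW.Theta

/-!
Multiplicative lifts and additive characters.
-/

noncomputable section

namespace Pool.Agent.Lib.MP_557161_ag.DW

namespace Char

open Polynomial IsUltrametricDist

/-- roots of `X ^ N - X` can be lifted along a ring map when the polynomial is a product of
linear factors -/
theorem lift_root {R L : Type} [CommRing R] [Field L] (f : R →+* L) {N : ℕ} (m : Multiset R)
    (hm : (X ^ N - X : R[X]) = (m.map (X - C ·)).prod) {w : L} (hw : w ^ N = w) :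
    ∃ z, z ^ N = z ∧ f z = w := by
  have h1 := congrArg (eval₂RingHom f w) hm
  rw [map_multiset_prod, Multiset.map_map] at h1
  simp only [coe_eval₂RingHom, eval₂_sub, eval₂_X_pow, eval₂_X, hw, sub_self,
    Function.comp_def, eval₂_C] at h1
  obtain ⟨z, hz, e⟩ := Multiset.mem_map.1 (Multiset.prod_eq_zero_iff.1 h1.symm)
  refine ⟨z, ?_, (sub_eq_zero.1 e).symm⟩
  have h2 := congrArg (evalRingHom z) hm
  rw [map_multiset_prod, Multiset.map_map,
    Multiset.prod_eq_zero (Multiset.mem_map.2 ⟨z, hz, by simp⟩)] at h2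
  simpa [sub_eq_zero] using h2

theorem monic {R : Type} [CommRing R] {N : ℕ} (hN : 1 < N) : (X ^ N - X : R[X]).Monic :=
  monic_X_pow_sub (degree_X_le.trans_lt (by exact_mod_cast hN))

theorem pow_iter {R : Type} [Monoid R] {p s : ℕ} {z : R} (h : z ^ p ^ s = z) (k : ℕ) :
    z ^ p ^ (s * k) = z := by
  induction k with
  | zero => simp
  | succ k ih => rw [Nat.mul_succ, pow_add, pow_mul, ih, h]

section
variable {F : Type} [NormedField F]

theorem norm_le {N : ℕ} (hN : 1 < N) {z : F} (h : z ^ N = z) : ‖z‖ ≤ 1 := by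
  by_contra hc
  have h1 := pow_lt_pow_right₀ (not_le.1 hc) hN
  rw [← norm_pow, ← norm_pow, h, pow_one] at h1
  exact lt_irrefl _ h1

theorem norm_root {N : ℕ} (hN : N ≠ 0) {z : F} (h : z ^ N = 1) : ‖z‖ = 1 :=
  (pow_eq_one_iff_of_nonneg (norm_nonneg z) hN).1 (by rw [← norm_pow, h, norm_one])

theorem norm_eq {N : ℕ} (hN : 1 < N) {z : F} (h : z ^ N = z) (h0 : z ≠ 0) : ‖z‖ = 1 := by
  obtain ⟨n, rfl⟩ : ∃ n, N = n + 1 := ⟨N - 1, by omega⟩
  exact norm_root (N := n) (by omega) (mul_right_cancel₀ h0 (by rw [← pow_succ, h, one_mul]))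

variable [IsUltrametricDist F]

theorem add_le {a b : F} {r : ℝ} (ha : ‖a‖ ≤ r) (hb : ‖b‖ ≤ r) : ‖a + b‖ ≤ r :=
  (norm_add_le_max a b).trans (max_le ha hb)

theorem add_lt {a b : F} {r : ℝ} (ha : ‖a‖ < r) (hb : ‖b‖ < r) : ‖a + b‖ < r :=
  (norm_add_le_max a b).trans_lt (max_lt ha hb)

theorem sum_lt {f : ℕ → F} (h : ∀ i, ‖f i‖ < 1) (s : ℕ) : ‖∑ i ∈ Finset.range s, f i‖ < 1 := by
  induction s with
  | zero => simp
  | succ s ih => rw [Finset.sum_range_succ]; exact add_lt ih (h s)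

/-- `A` is `1 + π * S` up to second order -/
def Near (π A S : F) : Prop := ‖S‖ ≤ 1 ∧ ‖A - 1 - π * S‖ ≤ ‖π‖ ^ 2

theorem Near.mul {π A S a t : F} (hπ : ‖π‖ ≤ 1) (h : Near π A S) (h' : Near π a t) :
    Near π (A * a) (S + t) := by
  refine ⟨add_le h.1 h'.1, ?_⟩
  have h2 : ‖π‖ ^ 2 ≤ 1 := pow_le_one₀ (norm_nonneg _) hπ
  have hm : ∀ {u : F}, ‖u‖ ≤ 1 → ‖1 + π * u‖ ≤ 1 := fun hu =>
    add_le norm_one.le (by rw [norm_mul]; exact mul_le_one₀ hπ (norm_nonneg _) hu)
  have h3 : ‖a‖ ≤ 1 := by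
    rw [show a = 1 + π * t + (a - 1 - π * t) by ring]
    exact add_le (hm h'.1) (h'.2.trans h2)
  rw [show A * a - 1 - π * (S + t) = π ^ 2 * (S * t) + (A - 1 - π * S) * a
    + (a - 1 - π * t) * (1 + π * S) by ring]
  refine add_le (add_le ?_ ?_) ?_ <;> rw [norm_mul]
  · rw [norm_pow, norm_mul]
    exact mul_le_of_le_one_right (by positivity) (mul_le_one₀ h.1 (norm_nonneg _) h'.1)
  · exact (mul_le_of_le_one_right (norm_nonneg _) h3).trans h.2
  · exact (mul_le_of_le_one_right (norm_nonneg _) (hm h.1)).trans h'.2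

theorem Near.prod {π : F} (hπ : ‖π‖ ≤ 1) {a t : ℕ → F} (h : ∀ i, Near π (a i) (t i)) (s : ℕ) :
    Near π (∏ i ∈ Finset.range s, a i) (∑ i ∈ Finset.range s, t i) := by
  induction s with
  | zero => simp [Near]
  | succ s ih => rw [Finset.prod_range_succ, Finset.sum_range_succ]; exact ih.mul hπ (h s)

theorem near_tsum [CompleteSpace F] {θ : ℕ → F} {π t : F} {c : ℝ} (c0 : 0 < c) (c1 : c < 1)
    (hθ : ∀ k, ‖θ k‖ ≤ c ^ k) (h0 : θ 0 = 1) (h1 : θ 1 = π) (h2 : ∀ k, 2 ≤ k → ‖θ k‖ ≤ ‖π‖ ^ 2)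
    (ht : ‖t‖ ≤ 1) : Near π (∑' k, θ k * t ^ k) t := by
  have hb : ∀ k, ‖θ k * t ^ k‖ ≤ ‖θ k‖ := fun k => by
    rw [norm_mul, norm_pow]
    exact mul_le_of_le_one_right (norm_nonneg _) (pow_le_one₀ (norm_nonneg _) ht)
  have hs : Summable fun k => θ k * t ^ k :=
    .of_norm_bounded (summable_geometric_of_lt_one c0.le c1) fun k => (hb k).trans (hθ k)
  refine ⟨ht, ?_⟩
  rw [← hs.sum_add_tsum_nat_add 2, Finset.sum_range_succ, Finset.sum_range_one, h0, h1,
    pow_zero, pow_one, mul_one, add_assoc, add_sub_cancel_left, add_sub_cancel_left]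
  exact norm_tsum_le_of_forall_le fun k => (hb _).trans (h2 _ (by omega))

/-- two roots of unity of order `p` that are close are equal -/
theorem root_eq {p : ℕ} [hp : Fact p.Prime] {π a b : F} (hπ : π ^ (p - 1) = -p) (ha : a ^ p = 1)
    (hb : b ^ p = 1) (h : ‖a - b‖ < ‖π‖) : a = b := by
  have hb1 := norm_root hp.out.ne_zero hb
  have hb0 : b ≠ 0 := norm_ne_zero_iff.1 (by rw [hb1]; exact one_ne_zero)
  by_contra hne
  have hu : (a / b) ^ p = 1 := by rw [div_pow, ha, hb, div_one]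
  have hu1 := norm_root hp.out.ne_zero hu
  have h1 : IsPrimitiveRoot (a / b) (p - 1 + 1) := by
    rw [Nat.sub_add_cancel hp.out.one_le,
      ← orderOf_eq_prime hu fun e => hne ((div_eq_one_iff_eq hb0).1 e)]
    exact IsPrimitiveRoot.orderOf _
  have h2 := congrArg norm h1.prod_one_sub_pow_eq_order
  have h3 : ((p - 1 : ℕ) : F) + 1 = p := by
    rw [← Nat.cast_succ, Nat.succ_eq_add_one, Nat.sub_add_cancel hp.out.one_le]
  have h4 : ‖1 - a / b‖ = ‖a - b‖ := by
    rw [one_sub_div hb0, norm_div, hb1, div_one, norm_sub_rev]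
  rw [h3, ← norm_neg (p : F), ← hπ, norm_pow, norm_prod] at h2
  have h5 : ∏ k ∈ Finset.range (p - 1), ‖1 - (a / b) ^ (k + 1)‖ ≤ ‖a - b‖ ^ (p - 1) := by
    rw [← Finset.card_range (p - 1), ← Finset.prod_const, Finset.card_range]
    refine Finset.prod_le_prod (fun _ _ => norm_nonneg _) fun k _ => ?_
    rw [← mul_neg_geom_sum, norm_mul, h4]
    refine mul_le_of_le_one_right (norm_nonneg _)
      (norm_sum_le_of_forall_le_of_nonneg zero_le_one fun i _ => ?_)
    rw [norm_pow, hu1, one_pow]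
  have h6 := pow_lt_pow_left₀ h (norm_nonneg _) (n := p - 1) (by have := hp.out.two_le; omega)
  linarith

/-- reduction of the ring of integers to an algebraically closed field -/
theorem exists_red (F : Type) [NormedField F] [IsUltrametricDist F] :
    ∃ (O : Subring F) (L : Type) (_ : Field L) (_ : IsAlgClosed L) (ρ : O →+* L),
      (∀ x, x ∈ O ↔ ‖x‖ ≤ 1) ∧ ∀ x : O, ρ x = 0 ↔ ‖(x : F)‖ < 1 := by
  let V := (NormedField.valuation (K := F)).valuationSubring
  refine ⟨V.toSubring, AlgebraicClosure (IsLocalRing.ResidueField V), inferInstance,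
    inferInstance, (algebraMap (IsLocalRing.ResidueField V) _).comp (IsLocalRing.residue V),
    fun x => ?_, fun x => ?_⟩
  · exact (Valuation.mem_valuationSubring_iff _ x).trans NNReal.coe_le_coe.symm
  · exact (map_eq_zero_iff (algebraMap (IsLocalRing.ResidueField V) _)
      (RingHom.injective _)).trans
      ((IsLocalRing.residue_eq_zero_iff (R := V) x).trans
        ((Valuation.mem_maximalIdeal_iff F _).trans NNReal.coe_lt_coe.symm))

end

theorem norm_p (p : ℕ) [Fact p.Prime] : ‖(p : ℂ_[p])‖ < 1 := by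
  rw [← map_natCast (algebraMap ℚ_[p] ℂ_[p]), norm_algebraMap']
  exact Padic.norm_p_lt_one

/-- an element of the field with `p ^ s` elements with trace one -/
theorem exists_tr (p : ℕ) [hp : Fact p.Prime] (K : Type) [Field K] [IsAlgClosed K] [CharP K p]
    {s : ℕ} (hs : 0 < s) : ∃ x : K, x ^ p ^ s = x ∧ ∑ i ∈ Finset.range s, x ^ p ^ i = 1 := by
  have h1 : (∑ i ∈ Finset.range s, X ^ p ^ i - 1 : K[X]).coeff 1 = 1 := by
    rw [coeff_sub, finsetSum_coeff, Finset.sum_eq_single 0, coeff_one]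
    · simp
    · intro i _ hi
      rw [coeff_X_pow, if_neg (Nat.one_lt_pow hi hp.out.one_lt).ne]
    · intro h
      exact absurd (Finset.mem_range.2 hs) h
  obtain ⟨x, hx⟩ := IsAlgClosed.exists_root (∑ i ∈ Finset.range s, X ^ p ^ i - 1 : K[X])
    fun h => by
      have := le_degree_of_ne_zero (h1 ▸ one_ne_zero)
      rw [h] at this
      exact absurd this (by decide)
  have h2 : ∑ i ∈ Finset.range s, x ^ p ^ i = 1 := by
    simpa [eval_finsetSum, sub_eq_zero] using hx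
  refine ⟨x, ?_, h2⟩
  have h3 := Finset.sum_range_succ' (fun i => x ^ p ^ i) s
  rw [Finset.sum_range_succ, h2] at h3
  simp only [pow_succ p, pow_mul, ← sum_pow_char, h2, one_pow, pow_zero, pow_one] at h3
  exact add_left_cancel h3

end Char

variable (p : ℕ) [Fact p.Prime] (K : Type) [Field K] [IsAlgClosed K] [CharP K p]

open Polynomial in
theorem exists_teich (hK : ∀ x : K, ∃ m, 0 < m ∧ x ^ p ^ m = x) : ∃ τ : K →*₀ ℂ_[p],
    Function.Injective τ ∧ (∀ s, 0 < s → ∀ z : ℂ_[p], z ^ p ^ s = z → ∃ x, τ x = z) ∧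
    (∀ x, x ≠ 0 → ‖τ x‖ = 1) ∧ ∀ x y, ‖τ (x + y) - τ x - τ y‖ < 1 := by
  have hp : p.Prime := Fact.out
  have hN : ∀ {s}, 0 < s → 1 < p ^ s := fun hs => Nat.one_lt_pow hs.ne' hp.one_lt
  obtain ⟨O, L, _, _, ρ, hO, hρ⟩ := Char.exists_red ℂ_[p]
  have hL : (p : L) = 0 := by
    rw [← map_natCast ρ, hρ]
    simpa using Char.norm_p p
  have : CharP L p := (CharP.charP_iff_prime_eq_zero hp).2 hL
  let _ := ZMod.algebra K p
  let _ := ZMod.algebra L p
  have : Algebra.IsAlgebraic (ZMod p) K := ⟨fun x => by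
    obtain ⟨m, hm, e⟩ := hK x
    exact ⟨X ^ p ^ m - X, (Char.monic (hN hm)).ne_zero, by simp [e]⟩⟩
  let j : K →+* L := (IsAlgClosed.lift : K →ₐ[ZMod p] L).toRingHom
  have ex : ∀ x : K, ∃ z : O, (∃ s, 0 < s ∧ z ^ p ^ s = z) ∧ ρ z = j x := fun x => by
    obtain ⟨s, hs, e⟩ := hK x
    have h1 := (IsAlgClosed.splits (X ^ p ^ s - X : ℂ_[p][X])).eq_prod_roots_of_monic
      (Char.monic (hN hs))
    obtain ⟨m, hm⟩ : ∃ m : Multiset O, m.map (fun z : O => (z : ℂ_[p]))
        = (X ^ p ^ s - X : ℂ_[p][X]).roots := by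
      refine (Multiset.canLift (fun z : O => (z : ℂ_[p])) (· ∈ O)).prf _ fun z hz => ?_
      refine (hO z).2 (Char.norm_le (hN hs) ?_)
      simpa [sub_eq_zero] using isRoot_of_mem_roots hz
    have h2 : (X ^ p ^ s - X : O[X]) = (m.map (X - C ·)).prod := by
      refine map_injective O.subtype Subtype.val_injective ?_
      rw [Polynomial.map_multiset_prod, Multiset.map_map]
      rw [← hm, Multiset.map_map] at h1
      simpa [Function.comp_def] using h1
    obtain ⟨z, h3, h4⟩ := Char.lift_root ρ m h2 (w := j x) (by rw [← map_pow, e])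
    exact ⟨z, ⟨s, hs, h3⟩, h4⟩
  have uniq : ∀ {z z' : O}, (∃ s, 0 < s ∧ z ^ p ^ s = z) → (∃ s, 0 < s ∧ z' ^ p ^ s = z') →
      ρ z = ρ z' → z = z' := by
    rintro z z' ⟨s, hs, e⟩ ⟨s', hs', e'⟩ h
    have h1 := geom_sum₂_mul z z' (p ^ (s * s'))
    have e2 := Char.pow_iter e' s
    rw [mul_comm] at e2
    rw [Char.pow_iter e, e2] at h1
    by_contra hne
    have h2 := congrArg ρ ((mul_eq_right₀ (sub_ne_zero.2 hne)).1 h1)
    simp only [map_sum, map_mul, map_pow, h, geom_sum₂_self, Nat.cast_pow, hL, map_one,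
      zero_pow (Nat.mul_pos hs hs').ne', zero_mul] at h2
    exact zero_ne_one h2
  choose t ht hj using ex
  have h1 : t 1 = 1 := uniq (ht 1) ⟨1, one_pos, one_pow _⟩ (by rw [hj, map_one, map_one])
  have h0 : t 0 = 0 :=
    uniq (ht 0) ⟨1, one_pos, zero_pow (by simpa using hp.ne_zero)⟩ (by rw [hj, map_zero, map_zero])
  have hm : ∀ x y, t (x * y) = t x * t y := fun x y => by
    obtain ⟨s, hs, e⟩ := ht x
    obtain ⟨s', hs', e'⟩ := ht y
    refine uniq (ht _) ⟨s * s', Nat.mul_pos hs hs', ?_⟩ (by rw [map_mul, hj, hj, hj, map_mul])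
    rw [mul_pow, Char.pow_iter e, mul_comm s, Char.pow_iter e']
  have hi : Function.Injective fun x => (t x : ℂ_[p]) := fun x y h =>
    j.injective (by rw [← hj, ← hj, Subtype.val_injective h])
  refine ⟨⟨⟨fun x => t x, by simp [h0]⟩, by simp [h1], fun x y => by simp [hm]⟩, hi,
    fun s hs z hz => ?_, fun x hx => ?_, fun x y => ?_⟩
  · let z' : O := ⟨z, (hO z).2 (Char.norm_le (hN hs) hz)⟩
    have h2 : z' ^ p ^ s = z' := Subtype.ext hz
    obtain ⟨x, -, hx⟩ := Char.lift_root j _ ((IsAlgClosed.splits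
      (X ^ p ^ s - X : K[X])).eq_prod_roots_of_monic (Char.monic (hN hs))) (w := ρ z')
      (by rw [← map_pow, h2])
    exact ⟨x, congrArg Subtype.val (uniq (ht x) ⟨s, hs, h2⟩ ((hj x).trans hx))⟩
  · obtain ⟨s, hs, e⟩ := ht x
    refine Char.norm_eq (hN hs) (congrArg Subtype.val e) fun h => hx (hi ?_)
    simp only [h0]
    exact h
  · exact (hρ (t (x + y) - t x - t y)).1 (by simp [hj])

theorem exists_split (hK : ∀ x : K, ∃ m, 0 < m ∧ x ^ p ^ m = x) :
    ∃ (θ : ℕ → ℂ_[p]) (c : ℝ) (τ : K →*₀ ℂ_[p]), Split θ c τ := by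
  have hp : p.Prime := Fact.out
  obtain ⟨θ, π, c, c0, c1, hθ, hπ, h0, h1, h2, h3⟩ := exists_theta p
  obtain ⟨τ, t1, t2, t3, t4⟩ := exists_teich p K hK
  have hp1 : p - 1 ≠ 0 := by have := hp.two_le; omega
  have r1 : ‖π‖ < 1 := by
    refine lt_of_pow_lt_pow_left₀ (p - 1) zero_le_one ?_
    rw [← norm_pow, hπ, norm_neg, one_pow]
    exact Char.norm_p p
  have r0 : 0 < ‖π‖ := norm_pos_iff.2 fun h => by
    rw [h, zero_pow hp1, zero_eq_neg, Nat.cast_eq_zero] at hπ
    exact hp.ne_zero hπ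
  have r2 : ‖π‖ ^ 2 < ‖π‖ := by nlinarith
  have t5 : ∀ x, ‖τ x‖ ≤ 1 := fun x => by
    rcases eq_or_ne x 0 with rfl | h
    · simp
    · exact (t3 x h).le
  have hn : ∀ s x, Char.Near π (psi θ τ s x) (∑ i ∈ Finset.range s, τ (x ^ p ^ i)) := by
    intro s x
    simp only [psi, ← map_pow τ x]
    exact Char.Near.prod r1.le (fun i => Char.near_tsum c0 c1 hθ h0 h1 h2 (t5 _)) s
  have hr : ∀ s, 0 < s → ∀ x : K, x ^ p ^ s = x → psi θ τ s x ^ p = 1 := fun s hs x hx =>
    h3 s hs (τ x) (by rw [← map_pow, hx])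
  refine ⟨θ, c, τ, c0, c1, h0, hθ, t1, t2, fun s hs x y hx hy => ?_, fun s hs => ?_⟩
  · refine Char.root_eq hπ (hr s hs _ (by rw [add_pow_char_pow, hx, hy]))
      (by rw [mul_pow, hr s hs x hx, hr s hs y hy, one_mul]) ?_
    have a1 := (hn s (x + y)).2
    have a2 := ((hn s x).mul r1.le (hn s y)).2
    have a3 := Char.sum_lt (fun i => t4 (x ^ p ^ i) (y ^ p ^ i)) s
    simp only [← add_pow_char_pow, Finset.sum_sub_distrib] at a3
    rw [← norm_neg] at a2
    have a4 := mul_lt_of_lt_one_right r0 a3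
    rw [← norm_mul] at a4
    refine lt_of_eq_of_lt (congrArg norm ?_)
      (Char.add_lt (Char.add_lt (a1.trans_lt r2) (a2.trans_lt r2)) a4)
    ring
  · obtain ⟨x, hx, e⟩ := Char.exists_tr p K hs
    refine ⟨x, hx, fun h => ?_⟩
    have a1 : ∀ n, ‖τ (∑ i ∈ Finset.range n, x ^ p ^ i)
        - ∑ i ∈ Finset.range n, τ (x ^ p ^ i)‖ < 1 := fun n => by
      induction n with
      | zero => simp
      | succ n ih =>
        rw [Finset.sum_range_succ, Finset.sum_range_succ]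
        refine lt_of_eq_of_lt (congrArg norm ?_)
          (Char.add_lt (t4 (∑ i ∈ Finset.range n, x ^ p ^ i) (x ^ p ^ n)) ih)
        ring
    have a2 := (hn s x).2
    rw [h, sub_self, zero_sub, norm_neg, norm_mul, sq] at a2
    have a3 := Char.add_lt (a1 s) ((le_of_mul_le_mul_left a2 r0).trans_lt r1)
    rw [sub_add_cancel, e, map_one, norm_one] at a3
    exact lt_irrefl _ a3

end Pool.Agent.Lib.MP_557161_ag.DW
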