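import Pool.Agent.Lib.MP_557161_ag.DW.Sum
import Pool.Agent.Lib.MP_557161_ag.DW.Char

/-!
Point counts of affine and projective varieties over the prime field.
-/

noncomputable section

namespace Pool.Agent.Lib.MP_557161_ag.DW

open MvPolynomial

namespace Count

variable (p : ℕ) [Fact p.Prime] (K : Type) [Field K] [Algebra (ZMod p) K]

theorem charP : CharP K p := charP_of_injective_algebraMap (algebraMap (ZMod p) K).injective p

/-- The fixed field of a power of the Frobenius map. -/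
def Fx (m : ℕ) : Subfield K :=
  haveI := charP p K
  (iterateFrobenius K p m).eqLocusField (RingHom.id K)

variable {p K}

theorem mem_Fx {m : ℕ} {x : K} : x ∈ Fx p K m ↔ x ^ p ^ m = x := Iff.rfl

theorem aeval_mem {ι : Type} {m : ℕ} {x : ι → K} (hx : ∀ i, x i ^ p ^ m = x i)
    (f : MvPolynomial ι (ZMod p)) : aeval x f ∈ Fx p K m := by
  induction f using MvPolynomial.induction_on with
  | C a => rw [aeval_C, mem_Fx, ← map_pow, ZMod.pow_card_pow]
  | add f g hf hg => rw [map_add]; exact add_mem hf hg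
  | mul_X f i hf => rw [map_mul, aeval_X]; exact mul_mem hf (hx i)

theorem Fx_eq {m : ℕ} (hm : 0 < m) :
    (Fx p K m : Set K) = (Polynomial.X ^ p ^ m - Polynomial.X : Polynomial K).rootSet K := by
  ext x
  rw [Polynomial.mem_rootSet_of_ne
    (FiniteField.X_pow_card_pow_sub_X_ne_zero K hm.ne' (Fact.out : p.Prime).one_lt)]
  simp [mem_Fx, sub_eq_zero]

theorem finite_Fx {m : ℕ} (hm : 0 < m) : Finite (Fx p K m) := by
  have : (Fx p K m : Set K).Finite := by
    rw [Fx_eq hm]; exact Polynomial.rootSet_finite _ _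
  exact this

theorem card_Fx [IsAlgClosed K] {m : ℕ} (hm : 0 < m) : Nat.card (Fx p K m) = p ^ m := by
  have := charP p K
  have h1 : Nat.card (Fx p K m) =
      Nat.card ((Polynomial.X ^ p ^ m - Polynomial.X : Polynomial K).rootSet K) := by
    rw [← Fx_eq hm]; rfl
  rw [h1, Nat.card_eq_fintype_card, Polynomial.card_rootSet_eq_natDegree
    (galois_poly_separable p _ (dvd_pow (dvd_refl p) hm.ne')) (IsAlgClosed.splits _),
    FiniteField.X_pow_card_pow_sub_X_natDegree_eq K hm.ne' (Fact.out : p.Prime).one_lt]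

variable {θ : ℕ → ℂ_[p]} {c : ℝ} {τ : K →*₀ ℂ_[p]}

omit [Algebra (ZMod p) K] in
theorem psi_zero (h : Split θ c τ) (m : ℕ) : psi θ τ m (0 : K) = 1 := by
  unfold psi
  refine Finset.prod_eq_one fun i _ => ?_
  rw [map_zero, zero_pow (pow_ne_zero _ (Fact.out : p.Prime).ne_zero), tsum_eq_single 0]
  · simp [h.zero]
  · intro k hk
    simp [hk]

/-- The additive character of the fixed field. -/
def chi (h : Split θ c τ) {m : ℕ} (hm : 0 < m) : AddChar (Fx p K m) ℂ_[p] where
  toFun y := psi θ τ m (y : K)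
  map_zero_eq_one' := psi_zero h m
  map_add_eq_mul' x y := h.add m hm x y x.2 y.2

theorem chi_prim (h : Split θ c τ) {m : ℕ} (hm : 0 < m) : (chi h hm).IsPrimitive := by
  refine AddChar.IsPrimitive.of_ne_one fun e => ?_
  obtain ⟨x, hx, hx'⟩ := h.ne m hm
  have h1 : chi h hm ⟨x, hx⟩ = psi θ τ m x := rfl
  rw [e, AddChar.one_apply] at h1
  exact hx' h1.symm

theorem chi_sum {A M α : Type} [AddCommMonoid A] [CommMonoid M] (ψ : AddChar A M) (S : Finset α)
    (f : α → A) : ψ (∑ j ∈ S, f j) = ∏ j ∈ S, ψ (f j) := by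
  classical
  induction S using Finset.induction_on with
  | empty => simp
  | insert a S ha ih => rw [Finset.sum_insert ha, Finset.prod_insert ha, ψ.map_add_eq_mul, ih]

open Classical in
theorem orth {F σ : Type} [Field F] [Fintype F] [Fintype σ] {ψ : AddChar F ℂ_[p]}
    (hψ : ψ.IsPrimitive) (a : σ → F) : ∑ y : σ → F, ψ (∑ j, y j * a j) =
      if ∀ j, a j = 0 then (Fintype.card F : ℂ_[p]) ^ Fintype.card σ else 0 := by
  simp_rw [chi_sum]
  have h1 := Finset.prod_univ_sum (fun _ : σ => (Finset.univ : Finset F))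
    (fun j y => ψ (y * a j))
  rw [Fintype.piFinset_univ] at h1
  rw [← h1]
  simp_rw [AddChar.sum_mulShift _ hψ]
  split_ifs with h
  · simp [h]
  · push Not at h
    obtain ⟨j, hj⟩ := h
    exact Finset.prod_eq_zero (Finset.mem_univ j) (by simp [hj])

theorem finsum_eq {κ : Type} [Fintype κ] [DecidableEq κ] {m : ℕ} [Fintype (Fx p K m)]
    (Φ : (κ → K) → ℂ_[p]) :
    ∑ᶠ z ∈ {z : κ → K | ∀ i, z i ^ p ^ m = z i}, Φ z =
      ∑ z : κ → Fx p K m, Φ fun i => (z i : K) := by
  have hinj : Function.Injective fun (z : κ → Fx p K m) (i : κ) => (z i : K) := by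
    intro z z' e
    funext i
    exact Subtype.ext (congrFun e i)
  have hr : {z : κ → K | ∀ i, z i ^ p ^ m = z i} =
      Set.range fun (z : κ → Fx p K m) (i : κ) => (z i : K) := by
    ext z
    constructor
    · intro hz
      exact ⟨fun i => ⟨z i, hz i⟩, rfl⟩
    · rintro ⟨w, rfl⟩ i
      exact (w i).2
  rw [hr, finsum_mem_range hinj, finsum_eq_sum_of_fintype]

theorem finite_pts {ι : Type} [Finite ι] {m : ℕ} (hm : 0 < m) (Q : (ι → K) → Prop) :
    Finite {x : ι → K // (∀ i, x i ^ p ^ m = x i) ∧ Q x} := by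
  have := finite_Fx (p := p) (K := K) hm
  refine Finite.of_injective (fun x i => (⟨x.1 i, x.2.1 i⟩ : Fx p K m)) fun x x' e => ?_
  ext i
  exact congrArg Subtype.val (congrFun e i)

open Classical in
theorem card_pts {ι : Type} [Fintype ι] {m : ℕ} [Fintype (Fx p K m)] (Q : (ι → K) → Prop) :
    (Nat.card {x : ι → K // (∀ i, x i ^ p ^ m = x i) ∧ Q x} : ℂ_[p]) =
      ∑ x : ι → Fx p K m, if Q (fun i => (x i : K)) then 1 else 0 := by
  have e : {x : ι → K // (∀ i, x i ^ p ^ m = x i) ∧ Q x} ≃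
      {x : ι → Fx p K m // Q (fun i => (x i : K))} :=
    { toFun := fun x => ⟨fun i => ⟨x.1 i, x.2.1 i⟩, x.2.2⟩
      invFun := fun x => ⟨fun i => (x.1 i : K), fun i => (x.1 i).2, x.2⟩
      left_inv := fun _ => rfl
      right_inv := fun _ => rfl }
  rw [Nat.card_congr e, Nat.card_eq_fintype_card, Fintype.card_subtype, Finset.sum_boole]

theorem key [IsAlgClosed K] (h : Split θ c τ) {ι σ : Type} [Finite ι] [Fintype σ]
    (f : σ → MvPolynomial ι (ZMod p)) {m : ℕ} (hm : 0 < m) :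
    ∑ᶠ z ∈ {z : ι ⊕ σ → K | ∀ i, z i ^ p ^ m = z i},
      psi θ τ m (aeval z (∑ j, X (Sum.inr j) * rename Sum.inl (f j))) =
    ((p : ℂ_[p]) ^ Fintype.card σ) ^ m *
      (Nat.card {x : ι → K // (∀ i, x i ^ p ^ m = x i) ∧ ∀ j, aeval x (f j) = 0} : ℂ_[p]) := by
  classical
  have := finite_Fx (p := p) (K := K) hm
  let := Fintype.ofFinite (Fx p K m)
  let := Fintype.ofFinite ι
  have hc : Fintype.card (Fx p K m) = p ^ m := by
    rw [← Nat.card_eq_fintype_card, card_Fx hm]
  rw [finsum_eq, card_pts, Finset.mul_sum,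
    ← (Equiv.sumArrowEquivProdArrow ι σ (Fx p K m)).symm.sum_comp, Fintype.sum_prod_type]
  refine Finset.sum_congr rfl fun x _ => ?_
  have h1 := orth (chi_prim h hm)
    (fun j => (⟨aeval (fun i => (x i : K)) (f j), aeval_mem (fun i => (x i).2) _⟩ : Fx p K m))
  rw [hc] at h1
  have h2 : ∀ y : σ → Fx p K m, psi θ τ m (aeval
      (fun i => (((Equiv.sumArrowEquivProdArrow ι σ (Fx p K m)).symm (x, y) i : Fx p K m) : K))
      (∑ j, X (Sum.inr j) * rename Sum.inl (f j))) = chi h hm (∑ j, y j *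
        (⟨aeval (fun i => (x i : K)) (f j), aeval_mem (fun i => (x i).2) _⟩ : Fx p K m)) := by
    intro y
    change psi θ τ m _ = psi θ τ m _
    congr 1
    rw [map_sum]
    push_cast
    refine Finset.sum_congr rfl fun j _ => ?_
    rw [map_mul, aeval_X, aeval_rename]
    rfl
  simp_rw [h2]
  rw [h1]
  simp only [Subtype.ext_iff, ZeroMemClass.coe_zero]
  split_ifs
  · push_cast
    rw [mul_one, ← pow_mul, ← pow_mul, mul_comm]
  · rw [mul_zero]

end Count

variable {p : ℕ} [Fact p.Prime] {K : Type} [Field K] [IsAlgClosed K] [Algebra (ZMod p) K]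
  (hK : ∀ x : K, ∃ m, 0 < m ∧ x ^ p ^ m = x) {ι : Type} [Finite ι]

include hK

theorem mer_count (G : Set (MvPolynomial ι (ZMod p))) : Mer fun m =>
    (Nat.card {x : ι → K // (∀ i, x i ^ p ^ m = x i) ∧ ∀ g ∈ G, aeval x g = 0} : ℂ_[p]) := by
  have := Count.charP p K
  obtain ⟨θ, c, τ, h⟩ := exists_split p K hK
  obtain ⟨S, hS⟩ := (IsNoetherian.noetherian (Ideal.span G) : (Ideal.span G).FG)
  have hG : ∀ x : ι → K, (∀ g ∈ G, aeval x g = 0) ↔
      ∀ j : S, aeval x (j : MvPolynomial ι (ZMod p)) = 0 := by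
    intro x
    have h1 : (∀ g ∈ G, aeval x g = 0) ↔
        Ideal.span G ≤ RingHom.ker (aeval x : MvPolynomial ι (ZMod p) →ₐ[ZMod p] K) := by
      rw [Ideal.span_le]; rfl
    have h2 : (∀ j : S, aeval x (j : MvPolynomial ι (ZMod p)) = 0) ↔
        Ideal.span (S : Set (MvPolynomial ι (ZMod p))) ≤
          RingHom.ker (aeval x : MvPolynomial ι (ZMod p) →ₐ[ZMod p] K) := by
      rw [Ideal.span_le]
      exact ⟨fun hh j hj => hh ⟨j, hj⟩, fun hh j => hh j.2⟩
    rw [h1, h2, ← hS]
  have hp : ((p : ℂ_[p]) ^ Fintype.card S) ≠ 0 :=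
    pow_ne_zero _ (Nat.cast_ne_zero.2 (Fact.out : p.Prime).ne_zero)
  refine ((mer_affine h (∑ j : S, X (Sum.inr j) *
    rename Sum.inl (j : MvPolynomial ι (ZMod p)))).scale
      ((p : ℂ_[p]) ^ Fintype.card S)⁻¹).congr fun m hm => ?_
  rw [Count.key h (fun j : S => (j : MvPolynomial ι (ZMod p))) hm, ← mul_assoc, ← mul_pow,
    inv_mul_cancel₀ hp, one_pow, one_mul]
  simp_rw [hG]

theorem mer_proj (G : Set (MvPolynomial ι (ZMod p))) {Z : Set (ι → K)}
    (hZ : ∀ x, x ∈ Z ↔ ∀ g ∈ G, aeval x g = 0) (hs : ∀ (c : K), ∀ x ∈ Z, c • x ∈ Z) :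
    Mer fun m => (Nat.card {x : Projectivization K (ι → K) //
      x.rep ∈ Z ∧ ∃ c : K, (fun s => x.rep s ^ p ^ m) = c • x.rep} : ℂ_[p]) := by
  classical
  let := Fintype.ofFinite ι
  let e := Fintype.equivFin ι
  let H : ι → Set (MvPolynomial ι (ZMod p)) := fun s =>
    G ∪ {X s - 1} ∪ {g | ∃ t, e t < e s ∧ g = X t}
  have hH : ∀ s (x : ι → K), (∀ g ∈ H s, aeval x g = 0) ↔
      x ∈ Z ∧ x s = 1 ∧ ∀ t, e t < e s → x t = 0 := by
    intro s x
    rw [hZ]
    constructor
    · intro hh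
      refine ⟨fun g hg => hh g (Or.inl (Or.inl hg)), ?_, fun t ht => ?_⟩
      · have := hh (X s - 1) (Or.inl (Or.inr rfl))
        simpa [sub_eq_zero] using this
      · simpa using hh (X t) (Or.inr ⟨t, ht, rfl⟩)
    · rintro ⟨h1, h2, h3⟩ g ((hg | hg) | ⟨t, ht, rfl⟩)
      · exact h1 g hg
      · rw [Set.mem_singleton_iff.1 hg]
        simp [h2]
      · simpa using h3 t ht
  refine (Mer.sum Finset.univ fun s _ => mer_count hK (H s)).congr fun m hm => ?_
  have := fun s => Count.finite_pts (p := p) (K := K) (ι := ι) hm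
    (fun x => ∀ g ∈ H s, aeval x g = 0)
  rw [← Nat.cast_sum, ← Nat.card_sigma]
  congr 1
  symm
  have hne : ∀ s (x : ι → K), (∀ g ∈ H s, aeval x g = 0) → x ≠ 0 := by
    intro s x hx h0
    have := ((hH s x).1 hx).2.1
    rw [h0] at this
    exact zero_ne_one this
  refine Nat.card_eq_of_bijective (fun w => ⟨Projectivization.mk K w.2.1 (hne w.1 _ w.2.2.2), ?_⟩)
    ⟨?_, ?_⟩
  · obtain ⟨s, x, hx, hx'⟩ := w
    obtain ⟨a, ha⟩ := Projectivization.exists_smul_eq_mk_rep K x (hne s x hx')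
    dsimp only
    rw [← ha]
    refine ⟨hs a x ((hH s x).1 hx').1, (a : K) ^ p ^ m * (a : K)⁻¹, ?_⟩
    funext t
    simp only [Pi.smul_apply, Units.smul_def, smul_eq_mul, mul_pow, hx t]
    field_simp
  · rintro ⟨s, x, hx, hx'⟩ ⟨s', x', hy, hy'⟩ hh
    obtain ⟨a, ha⟩ := (Projectivization.mk_eq_mk_iff' K _ _ _ _).1 (congrArg Subtype.val hh)
    dsimp only at ha
    obtain ⟨-, h1, h2⟩ := (hH s x).1 hx'
    obtain ⟨-, h3, h4⟩ := (hH s' x').1 hy'
    have hat : ∀ t, a * x' t = x t := fun t => congrFun ha t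
    have hss : s = s' := by
      apply e.injective
      rcases lt_trichotomy (e s) (e s') with hl | hl | hl
      · have := hat s
        rw [h4 s hl, h1, mul_zero] at this
        exact absurd this zero_ne_one
      · exact hl
      · have h5 := hat s'
        rw [h2 s' hl, h3, mul_one] at h5
        have := hat s
        rw [h5, h1, zero_mul] at this
        exact absurd this zero_ne_one
    subst hss
    have h5 := hat s
    rw [h3, h1, mul_one] at h5
    rw [h5, one_smul] at ha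
    subst ha
    rfl
  · rintro ⟨P, hP, c, hc⟩
    have hv := P.rep_nonzero
    obtain ⟨s, hs1, hs2⟩ := Finset.exists_min_image (Finset.univ.filter fun t => P.rep t ≠ 0) e
      (by
        by_contra hn
        apply hv
        funext t
        by_contra ht
        exact hn ⟨t, Finset.mem_filter.2 ⟨Finset.mem_univ _, ht⟩⟩)
    have hs3 : P.rep s ≠ 0 := (Finset.mem_filter.1 hs1).2
    have hct : ∀ t, P.rep t ^ p ^ m = c * P.rep t := fun t => congrFun hc t
    have hc0 : c ≠ 0 := by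
      intro h0
      have := hct s
      rw [h0, zero_mul] at this
      exact pow_ne_zero _ hs3 this
    refine ⟨⟨s, (P.rep s)⁻¹ • P.rep, fun t => ?_, (hH s _).2 ⟨hs _ _ hP, ?_, fun t ht => ?_⟩⟩, ?_⟩
    · simp only [Pi.smul_apply, smul_eq_mul, mul_pow, inv_pow, hct]
      field_simp
    · simp [hs3]
    · have : P.rep t = 0 := by
        by_contra h0
        exact absurd (hs2 t (Finset.mem_filter.2 ⟨Finset.mem_univ _, h0⟩)) (not_le.2 ht)
      simp [this]
    · apply Subtype.ext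
      dsimp only
      conv_rhs => rw [← P.mk_rep]
      exact (Projectivization.mk_eq_mk_iff' K _ _ _ _).2 ⟨_, rfl⟩

end Pool.Agent.Lib.MP_557161_ag.DW
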