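import Mathlib

/-!
Entire power series over the `p`-adic complex numbers, and sequences whose zeta function is a
quotient of entire series.
-/

noncomputable section

namespace Pool.Agent.Lib.MP_557161_ag.DW

open PowerSeries

variable {p : ℕ} [Fact p.Prime]

/-- Entire power series. -/
def Ent (f : PowerSeries ℂ_[p]) : Prop := ∀ c : ℝ, f.IsRestricted c

/-- The series `∑ a t * T ^ t` over `t ≥ 1`. -/
def ser {R : Type} [CommRing R] (a : ℕ → R) : PowerSeries R :=
  PowerSeries.mk fun t => if t = 0 then 0 else a t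

/-- The series `exp (∑ a t * T ^ t / t)` is a quotient of entire series. -/
def Mer (a : ℕ → ℂ_[p]) : Prop :=
  ∃ A B : PowerSeries ℂ_[p], Ent A ∧ Ent B ∧ constantCoeff A = 1 ∧ constantCoeff B = 1 ∧
    A * B * ser a = X * (derivative _ A * B - A * derivative _ B)

/-- The value of the additive character attached to a splitting function. -/
def psi {K : Type} (θ : ℕ → ℂ_[p]) (τ : K → ℂ_[p]) (s : ℕ) (x : K) : ℂ_[p] :=
  ∏ i ∈ Finset.range s, ∑' k, θ k * (τ x ^ p ^ i) ^ k

/-- A splitting function `θ`, the multiplicative lift `τ`, and the additive characters. -/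
structure Split {K : Type} [Field K] (θ : ℕ → ℂ_[p]) (c : ℝ) (τ : K →*₀ ℂ_[p]) : Prop where
  pos : 0 < c
  lt : c < 1
  zero : θ 0 = 1
  bound : ∀ k, ‖θ k‖ ≤ c ^ k
  inj : Function.Injective τ
  surj : ∀ s, 0 < s → ∀ z : ℂ_[p], z ^ p ^ s = z → ∃ x, τ x = z
  add : ∀ s, 0 < s → ∀ x y : K, x ^ p ^ s = x → y ^ p ^ s = y →
    psi θ τ s (x + y) = psi θ τ s x * psi θ τ s y
  ne : ∀ s, 0 < s → ∃ x : K, x ^ p ^ s = x ∧ psi θ τ s x ≠ 1

/-- The exponents of degree at most `b`. -/
abbrev Ex (ι : Type) (b : ℕ) : Type := {u : ι →₀ ℕ // u.degree ≤ b}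

instance (ι : Type) [Finite ι] (b : ℕ) : Fintype (Ex ι b) :=
  (Finsupp.finite_of_degree_le b).fintype

open Classical in
/-- The matrix of multiplication by `G` followed by the operator that divides exponents by `p`. -/
def dmat {R ι : Type} [CommRing R] (p : ℕ) (G : MvPolynomial ι R) (b : ℕ) :
    Matrix (Ex ι b) (Ex ι b) R :=
  Matrix.of fun u v => if v.1 ≤ p • u.1 then G.coeff (p • u.1 - v.1) else 0

end Pool.Agent.Lib.MP_557161_ag.DW
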