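import Pool.Agent.Lib.MP_557161_ag.DW.Defs

/-!
The characteristic series of a matrix: logarithmic derivative and estimates.
-/

noncomputable section

namespace Pool.Agent.Lib.MP_557161_ag.DW

open Filter PowerSeries

namespace Det

theorem der_prod {R S β : Type} [CommRing R] [CommRing S] [Algebra R S] [DecidableEq β]
    (d : Derivation R S S) (s : Finset β) (f : β → S) :
    d (∏ i ∈ s, f i) = ∑ j ∈ s, ∏ i ∈ s, if i = j then d (f i) else f i := by
  induction s using Finset.induction_on with
  | empty => simp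
  | insert a s ha ih =>
    rw [Finset.prod_insert ha, Derivation.leibniz, ih, Finset.sum_insert ha,
      Finset.prod_insert ha, if_pos rfl, smul_eq_mul, smul_eq_mul, add_comm, Finset.mul_sum]
    refine congrArg₂ (· + ·) ?_ ?_
    · rw [mul_comm]
      refine congrArg _ (Finset.prod_congr rfl fun i hi => ?_)
      rw [if_neg]
      rintro rfl
      exact ha hi
    · refine Finset.sum_congr rfl fun j hj => ?_
      rw [Finset.prod_insert ha, if_neg]
      rintro rfl
      exact ha hj

/-- Jacobi's formula. -/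
theorem jacobi {R S α : Type} [CommRing R] [CommRing S] [Algebra R S] [Fintype α] [DecidableEq α]
    (d : Derivation R S S) (M : Matrix α α S) :
    d M.det = (M.adjugate * M.map d).trace := by
  have h1 : d M.det = ∑ j, (M.updateCol j fun i => d (M i j)).det := by
    simp only [Matrix.det_apply]
    rw [map_sum, Finset.sum_comm]
    refine Finset.sum_congr rfl fun σ _ => ?_
    rw [← Finset.smul_sum, Units.smul_def, Units.smul_def, map_zsmul, der_prod]
    refine congrArg _ (Finset.sum_congr rfl fun j _ => Finset.prod_congr rfl fun i _ => ?_)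
    rw [Matrix.updateCol_apply]
    split_ifs with h
    · rw [h]
    · rfl
  rw [h1, Matrix.trace]
  refine Finset.sum_congr rfl fun j _ => ?_
  rw [← Matrix.cramer_apply, Matrix.cramer_eq_adjugate_mulVec]
  simp [Matrix.mulVec, dotProduct, Matrix.mul_apply]

theorem entry_bound {p : ℕ} [Fact p.Prime] {ι : Type} {c : ℝ} {G : MvPolynomial ι ℂ_[p]} {b : ℕ}
    (hc : 0 < c) (hG : ∀ w, ‖G.coeff w‖ ≤ c ^ w.degree) (u v : Ex ι b) :
    ‖dmat p G b u v‖ * c ^ v.1.degree ≤ c ^ (p * u.1.degree) := by
  unfold dmat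
  rw [Matrix.of_apply]
  split_ifs with h
  · have h1 : (p • u.1 - v.1).degree + v.1.degree = p * u.1.degree := by
      rw [← map_add, tsub_add_cancel_of_le h, map_nsmul, smul_eq_mul]
    rw [← h1, pow_add]
    exact mul_le_mul_of_nonneg_right (hG _) (pow_pos hc _).le
  · rw [norm_zero, zero_mul]
    exact (pow_pos hc _).le

theorem minor_bound {p : ℕ} [Fact p.Prime] {β : Type} [Fintype β] [DecidableEq β] {c : ℝ}
    (hc : 0 < c) (hc1 : c < 1) (M : Matrix β β ℂ_[p]) (w : β → ℕ)
    (hM : ∀ u v, ‖M u v‖ * c ^ w v ≤ c ^ (p * w u)) : ‖M.det‖ ≤ c ^ ∑ u, w u := by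
  rw [Matrix.det_apply]
  refine IsUltrametricDist.norm_sum_le_of_forall_le_of_nonneg (pow_pos hc _).le fun σ _ => ?_
  have h0 : ‖Equiv.Perm.sign σ • ∏ i, M (σ i) i‖ = ∏ i, ‖M (σ i) i‖ := by
    rw [← norm_prod]
    rcases Int.units_eq_one_or (Equiv.Perm.sign σ) with h | h <;> rw [h]
    · rw [one_smul]
    · rw [Units.neg_smul, one_smul, norm_neg]
  have h1 : (∏ i, ‖M (σ i) i‖) * c ^ ∑ u, w u ≤ c ^ (p * ∑ u, w u) := by
    rw [← Finset.prod_pow_eq_pow_sum, ← Finset.prod_mul_distrib, ← Equiv.sum_comp σ w,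
      Finset.mul_sum, ← Finset.prod_pow_eq_pow_sum]
    exact Finset.prod_le_prod (fun i _ => mul_nonneg (norm_nonneg _) (pow_pos hc _).le)
      fun i _ => hM _ _
  have h2 : c ^ (p * ∑ u, w u) ≤ c ^ (∑ u, w u) * c ^ ∑ u, w u := by
    rw [← pow_add, ← two_mul]
    exact pow_le_pow_of_le_one hc.le hc1.le
      (Nat.mul_le_mul_right _ (Fact.out : p.Prime).two_le)
  rw [h0]
  exact le_of_mul_le_mul_right (h1.trans h2) (pow_pos hc _)

theorem sum_degree {ι : Type} [Finite ι] {b : ℕ} (s : Finset (Ex ι b)) (m : ℕ) :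
    m * (s.card - Fintype.card (Ex ι m)) ≤ ∑ u ∈ s, u.1.degree := by
  classical
  have h1 : (s.filter fun u => u.1.degree ≤ m).card ≤ Fintype.card (Ex ι m) := by
    rw [← Fintype.card_coe]
    refine Fintype.card_le_of_injective
      (fun u => (⟨u.1.1, (Finset.mem_filter.1 u.2).2⟩ : Ex ι m)) fun u v h => ?_
    exact Subtype.ext (Subtype.ext (congrArg (fun x : Ex ι m => x.1) h))
  have h2 := Finset.card_filter_add_card_filter_not (s := s) fun u => u.1.degree ≤ m
  calc m * (s.card - Fintype.card (Ex ι m))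
      ≤ (s.filter fun u => ¬ u.1.degree ≤ m).card • m := by
        rw [smul_eq_mul, mul_comm]
        exact Nat.mul_le_mul_right _ (by omega)
    _ ≤ ∑ u ∈ s.filter fun u => ¬ u.1.degree ≤ m, u.1.degree :=
        Finset.card_nsmul_le_sum _ _ _ fun u hu => (not_le.1 (Finset.mem_filter.1 hu).2).le
    _ ≤ _ := Finset.sum_le_sum_of_subset (Finset.filter_subset _ _)

end Det

theorem newton {R α : Type} [CommRing R] [Fintype α] [DecidableEq α] (A : Matrix α α R) :
    (A.charpolyRev : PowerSeries R) * ser (fun t => (A ^ t).trace) =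
      -(X * derivative _ (A.charpolyRev : PowerSeries R)) := by
  set M : Matrix α α (PowerSeries R) := 1 - (X : PowerSeries R) • A.map C with hM
  set N : Matrix α α (PowerSeries R) := Matrix.of fun i j => mk fun t => (A ^ t) i j with hN
  have hD : (A.charpolyRev : PowerSeries R) = M.det := by
    rw [Matrix.charpolyRev, ← Polynomial.coeToPowerSeries.ringHom_apply, RingHom.map_det]
    refine congrArg _ ?_
    ext1 i j
    rw [hM, Matrix.sub_apply, Matrix.smul_apply, smul_eq_mul, mul_comm]
    by_cases h : i = j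
    · subst h
      simp [Polynomial.coeToPowerSeries.ringHom_apply]
    · simp [h, Polynomial.coeToPowerSeries.ringHom_apply]
  have hNA : ∀ i j t, coeff t ((N * A.map C : Matrix α α (PowerSeries R)) i j) =
      (A ^ (t + 1)) i j := by
    intro i j t
    rw [pow_succ, Matrix.mul_apply, Matrix.mul_apply, map_sum]
    refine Finset.sum_congr rfl fun k _ => ?_
    simp [hN]
  have hNM : N * M = 1 := by
    rw [hM, mul_sub, mul_one, Matrix.mul_smul]
    ext i j t
    rw [Matrix.sub_apply, Matrix.smul_apply, smul_eq_mul, map_sub]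
    rcases t with _ | t
    · by_cases h : i = j <;> simp [hN, h, Matrix.one_apply]
    · rw [coeff_succ_X_mul, hNA]
      by_cases h : i = j <;> simp [hN, h, Matrix.one_apply, coeff_one]
  have hadj : M.adjugate = M.det • N := by
    rw [← one_mul M.adjugate, ← hNM, mul_assoc, Matrix.mul_adjugate, Matrix.mul_smul, mul_one]
  have hd : M.map (derivative R) = -A.map C := by
    ext1 i j
    by_cases h : i = j <;> simp [hM, h]
  have hs : ser (fun t => (A ^ t).trace) = X * (N * A.map C).trace := by
    ext t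
    rcases t with _ | t
    · simp [ser]
    · rw [coeff_succ_X_mul, Matrix.trace, map_sum]
      simp only [Matrix.diag_apply, hNA]
      simp [ser, Matrix.trace]
  rw [hD, Det.jacobi, hadj, hd, hs, Matrix.smul_mul, Matrix.mul_neg, Matrix.trace_smul,
    Matrix.trace_neg, smul_eq_mul]
  ring

open Classical in
theorem det_bound (p : ℕ) [Fact p.Prime] (ι : Type) [Finite ι] : ∃ h : ℕ → ℕ,
    (∀ M : ℕ, ∀ᶠ j in atTop, M * j ≤ h j) ∧ ∀ (c : ℝ) (G : MvPolynomial ι ℂ_[p]) (b : ℕ),
      0 < c → c < 1 → (∀ w, ‖G.coeff w‖ ≤ c ^ w.degree) →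
        ∀ j, ‖(dmat p G b).charpolyRev.coeff j‖ ≤ c ^ h j := by
  refine ⟨fun j => (Finset.range (j + 1)).sup fun m => m * (j - Fintype.card (Ex ι m)),
    fun M => ?_, fun c G b hc hc1 hG j => ?_⟩
  · filter_upwards [eventually_ge_atTop (2 * M), eventually_ge_atTop
      (2 * Fintype.card (Ex ι (2 * M)))] with j h1 h2
    refine le_trans ?_ (Finset.le_sup (f := fun m => m * (j - Fintype.card (Ex ι m)))
      (Finset.mem_range.2 (Nat.lt_succ_of_le h1)))
    calc M * j ≤ M * (2 * (j - Fintype.card (Ex ι (2 * M)))) :=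
          Nat.mul_le_mul_left _ (by omega)
      _ = _ := by ring
  · have hrev : (dmat p G b).charpolyRev =
        Matrix.det (1 + (Polynomial.X : Polynomial ℂ_[p]) • (-dmat p G b).map Polynomial.C) := by
      simp only [Matrix.charpolyRev, sub_eq_add_neg]
      rw [Matrix.map_neg Polynomial.C (map_neg Polynomial.C), smul_neg]
    rw [hrev, Matrix.coeff_det_one_add_X_smul_eq_sum_minors]
    refine IsUltrametricDist.norm_sum_le_of_forall_le_of_nonneg (pow_pos hc _).le fun s hs => ?_
    refine (Det.minor_bound hc hc1 _ (fun u => u.1.1.degree) fun u v => ?_).trans ?_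
    · rw [Matrix.submatrix_apply, Matrix.neg_apply, norm_neg]
      exact Det.entry_bound hc hG _ _
    · refine pow_le_pow_of_le_one hc.le hc1.le (Finset.sup_le fun m _ => ?_)
      rw [Finset.sum_coe_sort s fun u => u.1.degree, ← (Finset.mem_powersetCard.1 hs).2]
      exact Det.sum_degree s m

end Pool.Agent.Lib.MP_557161_ag.DW
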