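import Pool.Agent.Lib.MP_557161_ag.DW.Defs

/-!
Closure properties of the class of sequences with meromorphic zeta function.
-/

noncomputable section

namespace Pool.Agent.Lib.MP_557161_ag.DW

open PowerSeries Filter Topology

variable {p : ℕ} [Fact p.Prime] {a b : ℕ → ℂ_[p]}

namespace Mer

theorem coeff_ser {R : Type} [CommRing R] (a : ℕ → R) (t : ℕ) :
    coeff t (ser a) = if t = 0 then 0 else a t := by
  rw [ser, coeff_mk]

theorem coeff_X_mul_derivative {R : Type} [CommRing R] (f : PowerSeries R) (j : ℕ) :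
    coeff j (X * derivative R f) = j * coeff j f := by
  cases j with
  | zero => simp
  | succ j => rw [coeff_succ_X_mul, coeff_derivative, mul_comm]; push_cast; rfl

theorem ent_one : Ent (1 : PowerSeries ℂ_[p]) := fun c => isRestricted_one c

theorem ent_mul {f g : PowerSeries ℂ_[p]} (hf : Ent f) (hg : Ent g) : Ent (f * g) :=
  fun c => isRestricted.mul c (hf c) (hg c)

theorem ent_rescale {f : PowerSeries ℂ_[p]} (hf : Ent f) (c : ℂ_[p]) : Ent (rescale c f) := by
  intro r
  have h := hf (‖c‖ * r)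
  rw [isRestricted_iff'] at h ⊢
  refine h.congr fun t => ?_
  rw [coeff_rescale, norm_mul, norm_pow, mul_pow]
  ring

theorem rescale_der {R : Type} [CommRing R] (c : R) (f : PowerSeries R) :
    rescale c (X * derivative R f) = X * derivative R (rescale c f) := by
  ext j
  rw [coeff_rescale, coeff_X_mul_derivative, coeff_X_mul_derivative, coeff_rescale]
  ring

theorem constantCoeff_rescale {R : Type} [CommRing R] (c : R) (f : PowerSeries R) :
    constantCoeff (rescale c f) = constantCoeff f := by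
  rw [← coeff_zero_eq_constantCoeff_apply, coeff_rescale, pow_zero, one_mul,
    coeff_zero_eq_constantCoeff_apply]

theorem ent_of_bound {f : PowerSeries ℂ_[p]} {c : ℝ} (hc : 0 < c) (hc' : c < 1) {h : ℕ → ℕ}
    (hh : ∀ M : ℕ, ∀ᶠ j in atTop, M * j ≤ h j) (hb : ∀ j, ‖coeff j f‖ ≤ c ^ h j) : Ent f := by
  intro r
  rw [← isRestricted_abs_iff, isRestricted_iff']
  obtain ⟨M, hM⟩ : ∃ M : ℕ, c ^ M * |r| < 1 := by
    have := (tendsto_pow_atTop_nhds_zero_of_lt_one hc.le hc').mul_const |r|
    rw [zero_mul] at this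
    exact (this.eventually (gt_mem_nhds one_pos)).exists
  refine squeeze_zero' (Eventually.of_forall fun j => by positivity) ?_
    (tendsto_pow_atTop_nhds_zero_of_lt_one (by positivity) hM)
  filter_upwards [hh M] with j hj
  rw [mul_pow, ← pow_mul]
  exact mul_le_mul_of_nonneg_right ((hb j).trans (pow_le_pow_of_le_one hc.le hc'.le hj))
    (by positivity)

end Mer

theorem Mer.congr (h : Mer a) (e : ∀ t, 0 < t → b t = a t) : Mer b := by
  have : ser b = ser a := by
    ext t
    rw [Mer.coeff_ser, Mer.coeff_ser]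
    split_ifs with h0
    exacts [rfl, e t (Nat.pos_of_ne_zero h0)]
  rwa [Mer, this]

theorem Mer.zero : Mer (fun _ => 0 : ℕ → ℂ_[p]) := by
  refine ⟨1, 1, Mer.ent_one, Mer.ent_one, map_one _, map_one _, ?_⟩
  have : ser (fun _ => 0 : ℕ → ℂ_[p]) = 0 := by
    ext t
    simp [Mer.coeff_ser]
  rw [this]
  ring

theorem Mer.add (h : Mer a) (h' : Mer b) : Mer fun t => a t + b t := by
  obtain ⟨A, B, hA, hB, a0, b0, e⟩ := h
  obtain ⟨A', B', hA', hB', a0', b0', e'⟩ := h'
  refine ⟨A * A', B * B', Mer.ent_mul hA hA', Mer.ent_mul hB hB', by simp [a0, a0'],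
    by simp [b0, b0'], ?_⟩
  have : ser (fun t => a t + b t) = ser a + ser b := by
    ext t
    rw [map_add, Mer.coeff_ser, Mer.coeff_ser, Mer.coeff_ser]
    split_ifs <;> simp
  rw [this, Derivation.leibniz, Derivation.leibniz]
  simp only [smul_eq_mul]
  linear_combination A' * B' * e + A * B * e'

theorem Mer.neg (h : Mer a) : Mer fun t => -a t := by
  obtain ⟨A, B, hA, hB, a0, b0, e⟩ := h
  refine ⟨B, A, hB, hA, b0, a0, ?_⟩
  have : ser (fun t => -a t) = -ser a := by
    ext t
    rw [map_neg, Mer.coeff_ser, Mer.coeff_ser]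
    split_ifs <;> simp
  rw [this]
  linear_combination -e

theorem Mer.sub (h : Mer a) (h' : Mer b) : Mer fun t => a t - b t :=
  (h.add h'.neg).congr fun _ _ => sub_eq_add_neg _ _

theorem Mer.sum {α : Type} (S : Finset α) {a : α → ℕ → ℂ_[p]} (h : ∀ x ∈ S, Mer (a x)) :
    Mer fun t => ∑ x ∈ S, a x t := by
  classical
  induction S using Finset.induction_on with
  | empty => exact Mer.zero.congr fun _ _ => Finset.sum_empty
  | insert x S hx ih =>
    exact ((h x (Finset.mem_insert_self _ _)).add
      (ih fun y hy => h y (Finset.mem_insert_of_mem hy))).congr fun _ _ => Finset.sum_insert hx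

theorem Mer.scale (h : Mer a) (c : ℂ_[p]) : Mer fun t => c ^ t * a t := by
  obtain ⟨A, B, hA, hB, a0, b0, e⟩ := h
  refine ⟨rescale c A, rescale c B, Mer.ent_rescale hA c, Mer.ent_rescale hB c,
    by rw [Mer.constantCoeff_rescale, a0], by rw [Mer.constantCoeff_rescale, b0], ?_⟩
  have h1 : ser (fun t => c ^ t * a t) = rescale c (ser a) := by
    ext t
    rw [coeff_rescale, Mer.coeff_ser, Mer.coeff_ser]
    split_ifs <;> simp
  have e' : A * B * ser a = X * derivative _ A * B - A * (X * derivative _ B) := by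
    rw [e]
    ring
  have h2 := congrArg (rescale c) e'
  rw [map_mul, map_mul, map_sub, map_mul (rescale c) _ B, map_mul (rescale c) A,
    Mer.rescale_der, Mer.rescale_der] at h2
  rw [h1, h2]
  ring

theorem Mer.mul_pow (h : Mer a) (c : ℂ_[p]) (N : ℕ) : Mer fun t => (c ^ t - 1) ^ N * a t := by
  induction N with
  | zero => exact h.congr fun _ _ => by rw [pow_zero, one_mul]
  | succ N ih => exact ((ih.scale c).sub ih).congr fun _ _ => by ring

/-- A limit of sequences whose inverse zeta functions satisfy a uniform bound. -/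
theorem mer_of_limit {u : ℕ → ℕ → ℂ_[p]} {D : ℕ → PowerSeries ℂ_[p]} {c : ℝ} (hc : 0 < c)
    (hc' : c < 1) {h : ℕ → ℕ} (hh : ∀ M : ℕ, ∀ᶠ j in atTop, M * j ≤ h j)
    (h0 : ∀ L, constantCoeff (D L) = 1) (hD : ∀ L, D L * ser (u L) = -(X * derivative _ (D L)))
    (hb : ∀ L j, ‖coeff j (D L)‖ ≤ c ^ h j)
    (hu : ∀ t, 0 < t → Tendsto (fun L => u L t) atTop (𝓝 (a t))) : Mer a := by
  have hs : ∀ t, Tendsto (fun L => coeff t (ser (u L))) atTop (𝓝 (coeff t (ser a))) := by
    intro t
    simp only [Mer.coeff_ser]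
    split_ifs with h1
    exacts [tendsto_const_nhds, hu t (Nat.pos_of_ne_zero h1)]
  have hr : ∀ L j, ∑ x ∈ Finset.HasAntidiagonal.antidiagonal j, coeff x.1 (D L) * coeff x.2 (ser (u L)) =
      -((j : ℂ_[p]) * coeff j (D L)) := by
    intro L j
    rw [← coeff_mul, hD, map_neg, Mer.coeff_X_mul_derivative]
  have hex : ∀ j, ∃ d, Tendsto (fun L => coeff j (D L)) atTop (𝓝 d) := by
    intro j
    induction j using Nat.strong_induction_on with
    | _ j ih =>
      rcases Nat.eq_zero_or_pos j with rfl | hj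
      · exact ⟨1, by simp [h0]⟩
      · have h1 : ∀ x ∈ Finset.HasAntidiagonal.antidiagonal j, ∃ d,
            Tendsto (fun L => coeff x.1 (D L) * coeff x.2 (ser (u L))) atTop (𝓝 d) := by
          intro x hx
          rw [Finset.HasAntidiagonal.mem_antidiagonal] at hx
          by_cases h2 : x.2 = 0
          · exact ⟨0, by simp [Mer.coeff_ser, h2]⟩
          · obtain ⟨d, hd⟩ := ih x.1 (by omega)
            exact ⟨_, hd.mul (hs x.2)⟩
        choose! e he using h1
        have h3 := (tendsto_finsetSum _ he).const_mul (-(j : ℂ_[p])⁻¹)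
        refine ⟨_, h3.congr fun L => ?_⟩
        have hj' : (j : ℂ_[p]) ≠ 0 := Nat.cast_ne_zero.mpr hj.ne'
        rw [hr]
        field_simp
  choose d hd using hex
  refine ⟨1, PowerSeries.mk d, Mer.ent_one, Mer.ent_of_bound hc hc' hh fun j => ?_, map_one _,
    ?_, ?_⟩
  · rw [coeff_mk]
    exact le_of_tendsto' (hd j).norm fun L => hb L j
  · rw [← coeff_zero_eq_constantCoeff_apply, coeff_mk]
    refine tendsto_nhds_unique (hd 0) ?_
    simp [h0]
  · have : PowerSeries.mk d * ser a = -(X * derivative _ (PowerSeries.mk d)) := by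
      ext j
      rw [coeff_mul, map_neg, Mer.coeff_X_mul_derivative]
      simp only [coeff_mk]
      refine tendsto_nhds_unique
        (tendsto_finsetSum _ fun x _ => (hd x.1).mul (hs x.2)) ?_
      simp only [hr]
      exact ((hd j).const_mul _).neg
    rw [one_mul, this, derivative_one]
    ring

end Pool.Agent.Lib.MP_557161_ag.DW
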