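import Pool.Agent.Lib.MP_557161_ag.DW.Mer

/-!
A linear recurrence sequence with meromorphic zeta function is an integral combination of
geometric sequences.
-/

noncomputable section

namespace Pool.Agent.Lib.MP_557161_ag.DW

variable {p : ℕ} [Fact p.Prime]

namespace Rec

open PowerSeries Filter Topology

variable {f g A B S G : PowerSeries ℂ_[p]} {w z : ℂ_[p]}

lemma tend (h : Ent f) (r : ℝ) : Tendsto (fun t => ‖coeff t f‖ * r ^ t) atTop (𝓝 0) :=
  (isRestricted_iff' r f).1 (h r)

lemma ent_of (w : ℂ_[p])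
    (h : ∀ r : ℝ, 1 ≤ r → ‖w‖ ≤ r → Tendsto (fun t => ‖coeff t f‖ * r ^ t) atTop (𝓝 0)) :
    Ent f := fun c => by
  rw [← isRestricted_abs_iff, isRestricted_iff']
  refine squeeze_zero (fun t => by positivity) (fun t => ?_)
    (h (max |c| (max 1 ‖w‖)) (by simp) (by simp))
  gcongr
  exact le_max_left _ _

lemma ent_mul (h : Ent f) (h' : Ent g) : Ent (f * g) := fun c => isRestricted.mul c (h c) (h' c)

lemma ent_add (h : Ent f) (h' : Ent g) : Ent (f + g) := fun c => isRestricted.add c (h c) (h' c)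

lemma ent_sub (h : Ent f) (h' : Ent g) : Ent (f - g) := fun c => by
  rw [sub_eq_add_neg]
  exact isRestricted.add c (h c) (isRestricted.neg c (h' c))

lemma ev_coe (U : Polynomial ℂ_[p]) : ∀ᶠ t in atTop, coeff t (U : PowerSeries ℂ_[p]) = 0 :=
  (eventually_gt_atTop U.natDegree).mono fun t ht => by
    rw [Polynomial.coeff_coe, Polynomial.coeff_eq_zero_of_natDegree_lt ht]

lemma ent_coe (U : Polynomial ℂ_[p]) : Ent (U : PowerSeries ℂ_[p]) := fun c =>
  (isRestricted_iff' c _).2 (tendsto_const_nhds.congr' ((ev_coe U).mono fun t ht => by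
    simp only [ht, norm_zero, zero_mul]))

lemma ent_X : Ent (X : PowerSeries ℂ_[p]) := Polynomial.coe_X (R := ℂ_[p]) ▸ ent_coe _

lemma ent_C (a : ℂ_[p]) : Ent (C a) := fun c => isRestricted_C c a

lemma ent_deriv (h : Ent f) : Ent (derivative _ f) := ent_of 0 fun r h1 _ => by
  refine squeeze_zero (fun t => by positivity) (fun t => ?_)
    ((tend h r).comp (tendsto_add_atTop_nat 1))
  have h2 := IsUltrametricDist.norm_natCast_le_one ℂ_[p] (t + 1)
  rw [coeff_derivative, norm_mul, ← Nat.cast_succ]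
  exact mul_le_mul (mul_le_of_le_one_right (norm_nonneg _) h2)
    (pow_le_pow_right₀ h1 t.le_succ) (by positivity) (norm_nonneg _)

/-- The quotient in the division by `X - w`. -/
def qu (w : ℂ_[p]) (f : PowerSeries ℂ_[p]) : PowerSeries ℂ_[p] :=
  mk fun j => ∑' k, coeff (j + 1 + k) f * w ^ k

lemma qu_le {r M : ℝ} (hr : 0 < r) (hw : ‖w‖ ≤ r) {j : ℕ}
    (h : ∀ k, ‖coeff (j + 1 + k) f‖ * r ^ (j + 1 + k) ≤ M) :
    ‖coeff j (qu w f)‖ * r ^ (j + 1) ≤ M := by
  rw [← le_div_iff₀ (pow_pos hr _), qu, coeff_mk]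
  refine IsUltrametricDist.norm_tsum_le_of_forall_le fun k => ?_
  rw [le_div_iff₀ (pow_pos hr _), norm_mul, norm_pow]
  refine le_trans ?_ (h k)
  rw [pow_add r (j + 1) k, mul_assoc, mul_comm (r ^ (j + 1))]
  gcongr

lemma ent_qu (h : Ent f) : Ent (qu w f) := ent_of w fun r h1 h2 => by
  refine tendsto_order.2 ⟨fun a ha => Eventually.of_forall fun t => ha.trans_le (by positivity),
    fun a ha => ?_⟩
  obtain ⟨N, hN⟩ := eventually_atTop.1 ((tend h r).eventually_le_const (half_pos ha))
  refine (eventually_ge_atTop N).mono fun t ht => lt_of_le_of_lt (le_trans ?_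
    (qu_le (f := f) (j := t) (one_pos.trans_le h1) h2 fun k => hN _ (by omega))) (half_lt_self ha)
  exact mul_le_mul_of_nonneg_left (pow_le_pow_right₀ h1 t.le_succ) (norm_nonneg _)

lemma summ (h : Ent f) (m : ℕ) : Summable fun k => coeff (m + k) f * w ^ k := by
  refine NonarchimedeanAddGroup.summable_of_tendsto_cofinite_zero ?_
  rw [Nat.cofinite_eq_atTop]
  refine squeeze_zero_norm (fun k => ?_) ((tend h (max 1 ‖w‖)).comp
    (tendsto_atTop_mono (fun k => Nat.le_add_left k m) tendsto_id))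
  rw [norm_mul, norm_pow]
  exact mul_le_mul_of_nonneg_left ((pow_le_pow_left₀ (norm_nonneg _) (le_max_right 1 _) k).trans
    (pow_le_pow_right₀ (le_max_left _ _) (Nat.le_add_left k m))) (norm_nonneg _)

lemma exists_div (w : ℂ_[p]) (h : Ent f) : ∃ a, f = (X - C w) * qu w f + C a := by
  refine ⟨coeff 0 f + w * coeff 0 (qu w f), ext fun j => ?_⟩
  rw [sub_mul, map_add, map_sub, coeff_C_mul]
  cases j with
  | zero => simp
  | succ j =>
    rw [coeff_succ_X_mul, coeff_succ_C, qu, coeff_mk, coeff_mk, (summ h _).tsum_eq_zero_add,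
      ← tsum_mul_left, add_zero, add_zero, pow_zero, mul_one, add_sub_assoc, left_eq_add,
      sub_eq_zero]
    refine tsum_congr fun k => ?_
    rw [show j + 1 + (k + 1) = j + 1 + 1 + k by omega]
    ring

lemma eq_zero_of_mul {c : ℂ_[p]} (h : Ent f) (e : (X - C w) * f = C c) : c = 0 := by
  have h1 : ∀ j, coeff j f * w ^ j * w = -c := fun j => by
    induction j with
    | zero =>
      have := congrArg (coeff 0) e
      simp only [sub_mul, map_sub, coeff_C_mul, coeff_zero_X_mul, coeff_zero_C] at this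
      linear_combination -this
    | succ j ih =>
      have := congrArg (coeff (j + 1)) e
      simp only [sub_mul, map_sub, coeff_C_mul, coeff_succ_X_mul, coeff_succ_C] at this
      linear_combination ih - w ^ j * w * this
  have h2 := (tend h ‖w‖).mul_const ‖w‖
  simp only [← norm_pow, ← norm_mul, h1, zero_mul] at h2
  simpa using tendsto_nhds_unique tendsto_const_nhds h2

/-- Divisibility by `X - w` in the ring of entire series. -/
def Dv (w : ℂ_[p]) (f : PowerSeries ℂ_[p]) : Prop := ∃ h, Ent h ∧ f = (X - C w) * h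

lemma Dv.zero {c : ℂ_[p]} (h : Dv w f) (hg : Ent g) (e : f = (X - C w) * g + C c) :
    f = (X - C w) * g := by
  obtain ⟨k, h1, h2⟩ := h
  rw [e, eq_zero_of_mul (c := c) (ent_sub h1 hg) (by linear_combination e - h2), map_zero,
    add_zero]

lemma Dv.prime (hf : Ent f) (hg : Ent g) (h : Dv w (f * g)) : Dv w f ∨ Dv w g := by
  obtain ⟨a, ha⟩ := exists_div w hf
  obtain ⟨b, hb⟩ := exists_div w hg
  obtain ⟨k, h1, h2⟩ := h
  have h3 := eq_zero_of_mul (w := w) (c := a * b) (ent_sub h1 (ent_add (ent_mul (ent_qu (w := w) hf) hg)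
    (ent_mul (ent_C a) (ent_qu (w := w) hg))))
    (by rw [map_mul]; linear_combination g * ha + C a * hb - h2)
  refine (mul_eq_zero.1 h3).imp (fun e => ⟨qu w f, ent_qu hf, ?_⟩) fun e => ⟨qu w g, ent_qu hg, ?_⟩
  · rwa [e, map_zero, add_zero] at ha
  · rwa [e, map_zero, add_zero] at hb

lemma order_aux (hw : w ≠ 0) (n : ℕ) : ∀ f : PowerSeries ℂ_[p], Ent f → constantCoeff f ≠ 0 →
    (∀ j, ‖coeff j f‖ * (2 * ‖w‖) ^ j ≤ 2 ^ n * ‖constantCoeff f‖ / 2) →
    ∃ (m : ℕ) (g : PowerSeries ℂ_[p]), Ent g ∧ constantCoeff g ≠ 0 ∧ ¬ Dv w g ∧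
      f = (X - C w) ^ m * g := by
  induction n with
  | zero =>
    intro f _ h0 h
    have h1 := h 0
    have h2 := norm_pos_iff.2 h0
    rw [coeff_zero_eq_constantCoeff_apply] at h1
    exact absurd h1 (by norm_num; linarith)
  | succ n ih =>
    intro f hf h0 h
    by_cases h1 : Dv w f
    swap
    · exact ⟨0, f, hf, h0, h1, by simp⟩
    have h2 := (exists_div w hf).elim fun a => h1.zero (ent_qu hf)
    have h3 : constantCoeff f = -w * constantCoeff (qu w f) := by
      conv_lhs => rw [h2]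
      simp
    have h4 := norm_pos_iff.2 hw
    obtain ⟨m, g, k1, k2, k3, k4⟩ := ih _ (ent_qu (w := w) hf)
      (right_ne_zero_of_mul (h3 ▸ h0)) fun j => by
        have h5 := qu_le (f := f) (w := w) (j := j) (by positivity : 0 < 2 * ‖w‖) (by linarith)
          fun k => h _
        rw [h3, norm_mul, norm_neg, pow_succ, pow_succ] at h5
        refine le_of_mul_le_mul_right ?_ (by positivity : 0 < 2 * ‖w‖)
        linarith
    exact ⟨m + 1, g, k1, k2, k3, by rw [pow_succ', mul_assoc, ← k4, ← h2]⟩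

lemma exists_order (hw : w ≠ 0) (hf : Ent f) (h0 : constantCoeff f ≠ 0) :
    ∃ (m : ℕ) (g : PowerSeries ℂ_[p]), Ent g ∧ constantCoeff g ≠ 0 ∧ ¬ Dv w g ∧
      f = (X - C w) ^ m * g := by
  obtain ⟨M, hM⟩ := (tend hf (2 * ‖w‖)).bddAbove_range
  have h1 := norm_pos_iff.2 h0
  obtain ⟨n, hn⟩ := pow_unbounded_of_one_lt (M * 2 / ‖constantCoeff f‖) (one_lt_two (α := ℝ))
  rw [div_lt_iff₀ h1] at hn
  exact order_aux hw n f hf h0 fun j => (hM ⟨j, rfl⟩).trans (by linarith)

/-- The identity for the logarithmic derivative. -/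
def LD (A B S : PowerSeries ℂ_[p]) : Prop :=
  A * B * S = X * (derivative _ A * B - A * derivative _ B)

lemma LD.symm (h : LD A B S) : LD B A (-S) := by
  rw [LD] at h ⊢
  linear_combination -h

lemma ne_zero (w : ℂ_[p]) : (X - C w : PowerSeries ℂ_[p]) ≠ 0 := fun e => by
  simpa [coeff_C] using congrArg (coeff 1) e

lemma LD.strip (hG : (X - C w) * G = -X) (n : ℕ) :
    ∀ {S}, LD ((X - C w) ^ n * A) B S → LD A B (S + n * G) := by
  induction n with
  | zero => intro S h; simpa using h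
  | succ n ih =>
    intro S h
    rw [Nat.cast_succ, add_mul, one_mul, add_comm _ G, ← add_assoc]
    refine ih (mul_left_cancel₀ (ne_zero w) ?_)
    rw [pow_succ', mul_assoc, LD, Derivation.leibniz, map_sub, derivative_X, derivative_C,
      smul_eq_mul, smul_eq_mul] at h
    linear_combination h + (X - C w) ^ n * A * B * hG

lemma geo_mul (e : z * w = 1) : (X - C w) * ser (fun t => z ^ t) = -X := by
  refine ext fun j => ?_
  rw [sub_mul, map_sub, coeff_C_mul]
  rcases j with _ | _ | j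
  · simp [ser]
  · rw [coeff_succ_X_mul]
    simpa [ser, mul_comm] using e
  · rw [coeff_succ_X_mul]
    simp only [ser, coeff_mk, Nat.succ_ne_zero, if_false, map_neg, coeff_X]
    rw [if_neg (by omega)]
    linear_combination -z ^ (j + 1) * e

lemma main (d : ℕ) : ∀ (V U : Polynomial ℂ_[p]) (A B S : PowerSeries ℂ_[p]), V.natDegree = d →
    V.coeff 0 ≠ 0 → Ent A → Ent B → constantCoeff A ≠ 0 → constantCoeff B ≠ 0 → LD A B S →
    V * S = U → ∃ n : ℂ_[p] →₀ ℤ, (∀ z ∈ n.support, z ≠ 0 ∧ V.IsRoot z⁻¹) ∧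
      ∀ᶠ t in atTop, coeff t S = n.sum fun z m => m * z ^ t := by
  classical
  induction d with
  | zero =>
    intro V U A B S hd h0 _ _ _ _ _ e
    refine ⟨0, by simp, (ev_coe U).mono fun t ht => ?_⟩
    rw [← e, Polynomial.eq_C_of_natDegree_eq_zero hd, Polynomial.coe_C, coeff_C_mul] at ht
    rw [Finsupp.sum_zero_index, (mul_eq_zero.1 ht).resolve_left h0]
  | succ d ih =>
    intro V U A B S hd h0 hA hB a0 b0 h e
    obtain ⟨w, hw⟩ := IsAlgClosed.exists_root V
      (Polynomial.natDegree_pos_iff_degree_pos.1 (by omega)).ne'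
    obtain ⟨V, rfl⟩ := Polynomial.dvd_iff_isRoot.2 hw
    rw [Polynomial.mul_coeff_zero] at h0
    have h1 := right_ne_zero_of_mul h0
    have h2 : w ≠ 0 := by simpa using left_ne_zero_of_mul h0
    rw [Polynomial.natDegree_mul (Polynomial.X_sub_C_ne_zero w) fun k => h1 (by simp [k]),
      Polynomial.natDegree_X_sub_C] at hd
    obtain ⟨α, A, k1, k2, k3, rfl⟩ := exists_order h2 hA a0
    obtain ⟨β, B, l1, l2, l3, rfl⟩ := exists_order h2 hB b0
    have hG := geo_mul (inv_mul_cancel₀ h2)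
    set G := ser fun t => w⁻¹ ^ t with eG
    have h3 := (LD.strip hG β (LD.strip hG α h).symm).symm
    have h4 : ((U - ((α : Polynomial ℂ_[p]) - (β : Polynomial ℂ_[p])) * Polynomial.X * V :
        Polynomial ℂ_[p]) : PowerSeries ℂ_[p]) = (X - C w) * ((V : PowerSeries ℂ_[p]) *
          -(-(S + (α : PowerSeries ℂ_[p]) * G) + (β : PowerSeries ℂ_[p]) * G)) := by
      rw [← Polynomial.coeToPowerSeries.ringHom_apply] at e ⊢
      simp only [map_sub, map_mul, map_natCast, Polynomial.coeToPowerSeries.ringHom_apply,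
        Polynomial.coe_X, Polynomial.coe_C] at e ⊢
      linear_combination -e - ((α : PowerSeries ℂ_[p]) - β) * (V : PowerSeries ℂ_[p]) * hG
    generalize U - ((α : Polynomial ℂ_[p]) - (β : Polynomial ℂ_[p])) * Polynomial.X * V = U' at h4
    have h5 : Dv w (A * (B * (U' : PowerSeries ℂ_[p]))) :=
      ⟨(V : PowerSeries ℂ_[p]) * (X * (derivative _ A * B - A * derivative _ B)),
      ent_mul (ent_coe V) (ent_mul ent_X (ent_sub (ent_mul (ent_deriv k1) l1)
        (ent_mul k1 (ent_deriv l1)))), by rw [← h3, h4]; ring⟩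
    have h6 := (((h5.prime k1 (ent_mul l1 (ent_coe _))).resolve_left k3).prime l1
      (ent_coe _)).resolve_left l3
    have h7 := h6.zero (c := U'.eval w) (ent_coe (U' /ₘ (Polynomial.X - Polynomial.C w))) (by
      rw [← Polynomial.coe_X, ← Polynomial.coe_C, ← Polynomial.coe_C, ← Polynomial.coe_sub,
        ← Polynomial.coe_mul, ← Polynomial.coe_add, ← Polynomial.modByMonic_X_sub_C_eq_C_eval,
        add_comm, Polynomial.modByMonic_add_div])
    obtain ⟨n, h8, h9⟩ := ih V _ A B _ (by omega) h1 k1 l1 k2 l2 h3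
      (mul_left_cancel₀ (ne_zero w) (h4.symm.trans h7))
    refine ⟨n + Finsupp.single w⁻¹ ((β : ℤ) - (α : ℤ)), fun z hz => ?_, ?_⟩
    · rcases Finset.mem_union.1 (Finsupp.support_add hz) with k | k
      · exact ⟨(h8 z k).1, (h8 z k).2.dvd (dvd_mul_left _ _)⟩
      · rw [Finset.mem_singleton.1 (Finsupp.support_single_subset k), inv_inv]
        exact ⟨inv_ne_zero h2, hw⟩
    · filter_upwards [h9, eventually_gt_atTop 0] with t ht t0
      have h10 : coeff t G = w⁻¹ ^ t := by rw [eG, ser, coeff_mk, if_neg t0.ne']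
      rw [Finsupp.sum_add_index' (by simp) fun _ _ _ => by push_cast; ring,
        Finsupp.sum_single_index (by simp), ← ht]
      simp only [← nsmul_eq_mul, map_neg, map_add, map_nsmul, h10]
      push_cast
      ring

end Rec

open Polynomial

theorem Mer.expand {a : ℕ → ℂ_[p]} (h : Mer a) {g : ℂ_[p][X]} (hg : g.coeff 0 ≠ 0)
    (hr : ∀ t, 0 < t → (g.sum fun j c => c * a (j + t)) = 0) :
    ∃ (S : Finset ℂ_[p]) (n : ℂ_[p] → ℤ), (∀ z ∈ S, g.IsRoot z) ∧
      ∀ t, 0 < t → a t = ∑ z ∈ S, n z * z ^ t := by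
  obtain ⟨A, B, hA, hB, a0, b0, h⟩ := h
  have h0 : g ≠ 0 := fun e => hg (by simp [e])
  have h1 : ∀ t, g.natDegree < t → PowerSeries.coeff t
      ((g.reverse : PowerSeries ℂ_[p]) * ser a) = 0 := fun t ht => by
    obtain ⟨t, rfl⟩ := Nat.exists_eq_add_of_lt ht
    rw [← hr (t + 1) t.succ_pos, sum_over_range _ (by simp), PowerSeries.coeff_mul,
      Finset.Nat.sum_antidiagonal_eq_sum_range_succ_mk, ← Finset.sum_range_reflect _ (g.natDegree + 1)]
    refine (Finset.sum_subset (Finset.range_mono (by omega)) fun i _ hi => ?_).symm.trans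
      (Finset.sum_congr rfl fun i hi => ?_)
    · rw [coeff_coe, coeff_eq_zero_of_natDegree_lt (g.reverse_natDegree_le.trans_lt
        (by simpa using hi)), zero_mul]
    · have hi' : i ≤ g.natDegree := by simpa [Nat.lt_succ_iff] using hi
      rw [coeff_coe, coeff_reverse, revAt_le hi', ser, PowerSeries.coeff_mk, if_neg (by omega)]
      congr 2
      omega
  obtain ⟨n, h2, h3⟩ := Rec.main _ g.reverse
    (PowerSeries.trunc (g.natDegree + 1) ((g.reverse : PowerSeries ℂ_[p]) * ser a)) A B (ser a) rfl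
    (by rwa [coeff_zero_reverse, leadingCoeff_ne_zero]) hA hB (a0 ▸ one_ne_zero)
    (b0 ▸ one_ne_zero) h (PowerSeries.ext fun t => by
      rw [coeff_coe, PowerSeries.coeff_trunc]
      split_ifs with k
      · rfl
      · exact h1 t (by omega))
  have h4 : ∀ z ∈ n.support, g.IsRoot z := fun z hz => by
    have := invertibleOfNonzero (h2 z hz).1
    have k := (eval₂_reverse_eq_zero_iff (RingHom.id _) z g).1
    rw [invOf_eq_inv] at k
    exact k (h2 z hz).2
  refine ⟨n.support, n, h4, ?_⟩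
  obtain ⟨N, hN⟩ := Filter.eventually_atTop.1 h3
  have h5 : ∀ k t, 0 < t → N ≤ t + k → a t = ∑ z ∈ n.support, n z * z ^ t := fun k => by
    induction k with
    | zero =>
      intro t ht hk
      have := hN t hk
      rwa [ser, PowerSeries.coeff_mk, if_neg ht.ne'] at this
    | succ k ih =>
      intro t ht hk
      have h6 : ∑ j ∈ Finset.range (g.natDegree + 1),
          g.coeff j * ∑ z ∈ n.support, n z * z ^ (j + t) = 0 := by
        simp only [Finset.mul_sum]
        rw [Finset.sum_comm]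
        refine Finset.sum_eq_zero fun z hz => ?_
        have h7 := (eval_eq_sum_range z).symm.trans (h4 z hz)
        rw [← mul_zero (n z * z ^ t), ← h7, Finset.mul_sum]
        exact Finset.sum_congr rfl fun j _ => by ring
      have h7 := hr t ht
      rw [sum_over_range _ (by simp), ← h6, Finset.sum_range_succ', Finset.sum_range_succ',
        Finset.sum_congr rfl fun j _ => congrArg _ (ih (j + 1 + t) (by omega) (by omega)),
        zero_add, add_right_inj] at h7
      exact mul_left_cancel₀ hg h7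
  exact fun t ht => h5 N t ht (by omega)

lemma Rec.transfer {k E F : Type} [Field k] [Field E] [Field F] [Algebra k E] [Algebra k F]
    [IsAlgClosed E] [IsAlgClosed F] {g : k[X]} (hg : g ≠ 0) {S : Finset E} {n : E → ℤ}
    (h1 : ∀ z ∈ S, (g.map (algebraMap k E)).IsRoot z) {a : ℕ → ℤ}
    (h2 : ∀ t, 0 < t → (a t : E) = ∑ z ∈ S, n z * z ^ t) :
    ∃ (S : Finset F) (n : F → ℤ), ∀ t, 0 < t → (a t : F) = ∑ z ∈ S, n z * z ^ t := by
  classical
  let i : AlgebraicClosure k →ₐ[k] E := IsAlgClosed.lift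
  let j : AlgebraicClosure k →ₐ[k] F := IsAlgClosed.lift
  have h3 : ∀ z ∈ S, ∃ y, i y = z := fun z hz =>
    (IsAlgClosed.splits (g.map (algebraMap k (AlgebraicClosure k)))).mem_range_of_isRoot
      (i := i.toRingHom) (Polynomial.map_ne_zero hg)
      (by rw [map_map, AlgHom.toRingHom_eq_coe, i.comp_algebraMap]; exact h1 z hz)
  choose! y hy using h3
  refine ⟨S.image fun z => j (y z), fun u => ∑ z ∈ S with j (y z) = u, n z, fun t ht => ?_⟩
  have h4 : (a t : AlgebraicClosure k) = ∑ z ∈ S, n z * y z ^ t := i.injective (by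
    show i _ = i _
    rw [map_intCast, h2 t ht, map_sum]
    exact Finset.sum_congr rfl fun z hz => by rw [map_mul, map_pow, map_intCast, hy z hz])
  rw [← map_intCast j, h4, map_sum, ← Finset.sum_fiberwise_of_maps_to
    fun z hz => Finset.mem_image_of_mem (fun z => j (y z)) hz]
  refine Finset.sum_congr rfl fun u _ => ?_
  rw [Int.cast_sum, Finset.sum_mul]
  exact Finset.sum_congr rfl fun z hz => by
    rw [map_mul, map_pow, map_intCast, (Finset.mem_filter.1 hz).2]

theorem Mer.expand_complex {a : ℕ → ℤ} (h : Mer fun t => (a t : ℂ_[p])) {g : ℚ[X]}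
    (hg : g.coeff 0 ≠ 0) (hr : ∀ t, 0 < t → (g.sum fun j c => c * a (j + t)) = 0) :
    ∃ (S : Finset ℂ) (n : ℂ → ℤ), ∀ t, 0 < t → (a t : ℂ) = ∑ z ∈ S, n z * z ^ t := by
  obtain ⟨S, n, h1, h2⟩ := h.expand (g := g.map (algebraMap ℚ ℂ_[p])) (by simpa using hg)
    fun t ht => by
      have h1 := congrArg (algebraMap ℚ ℂ_[p]) (hr t ht)
      rw [sum_over_range _ (by simp), map_sum] at h1
      rw [sum_over_range _ (by simp), natDegree_map]
      simpa using h1
  exact Rec.transfer (fun e => hg (by simp [e])) h1 h2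

end Pool.Agent.Lib.MP_557161_ag.DW
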