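import Pool.Agent.Lib.MP_557161_ag.DW.Defs

/-!
The trace formula for a polynomial.
-/

noncomputable section

namespace Pool.Agent.Lib.MP_557161_ag.DW

open MvPolynomial

namespace Trace

variable {R ι : Type}

lemma coeff_zero [CommRing R] {F : MvPolynomial ι R} {w : ι →₀ ℕ} (h : F.totalDegree < w.degree) :
    F.coeff w = 0 :=
  coeff_eq_zero_of_totalDegree_lt h

lemma key [CommRing R] [Finite ι] {p b : ℕ} (hp : 2 ≤ p) {F : MvPolynomial ι R}
    (hF : F.totalDegree ≤ 2 * b) (H : MvPolynomial ι R) (a : ι →₀ ℕ) :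
    (expand p H * F).coeff (p • a) =
      ∑ w : Ex ι b, (H * monomial w.1 1).coeff a * F.coeff (p • w.1) := by
  classical
  induction H using MvPolynomial.induction_on' with
  | add H₁ H₂ h₁ h₂ =>
    simp only [map_add, add_mul, coeff_add, h₁, h₂, Finset.sum_add_distrib]
  | monomial s c =>
    rw [expand_monomial, coeff_monomial_mul']
    simp only [monomial_mul, mul_one, coeff_monomial]
    by_cases hs : s ≤ a
    · have e : p • a - p • s = p • (a - s) := by
        ext i
        simp [Nat.mul_sub]
      rw [if_pos (nsmul_le_nsmul_right hs p), e]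
      by_cases hd : (a - s).degree ≤ b
      · rw [Finset.sum_eq_single (⟨a - s, hd⟩ : Ex ι b)]
        · rw [if_pos (add_tsub_cancel_of_le hs)]
        · intro w _ hw
          rw [if_neg, zero_mul]
          exact fun h => hw (Subtype.ext (eq_tsub_of_add_eq ((add_comm _ _).trans h)))
        · simp
      · rw [coeff_zero, mul_zero, eq_comm]
        · refine Finset.sum_eq_zero fun w _ => ?_
          rw [if_neg, zero_mul]
          intro h
          refine hd ?_
          rw [← h, add_tsub_cancel_left]
          exact w.2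
        · rw [map_nsmul, smul_eq_mul]
          nlinarith [not_le.1 hd]
    · rw [if_neg, eq_comm]
      · refine Finset.sum_eq_zero fun w _ => ?_
        rw [if_neg, zero_mul]
        exact fun h => hs (h ▸ le_self_add)
      · intro h
        refine hs fun i => ?_
        have := h i
        simp only [Finsupp.smul_apply, smul_eq_mul] at this
        exact Nat.le_of_mul_le_mul_left this (by omega)

open Classical in
lemma pow_apply [CommRing R] [Finite ι] {p b : ℕ} (hp : 2 ≤ p) {G : MvPolynomial ι R}
    (hb : G.totalDegree ≤ b) (m : ℕ) (u v : Ex ι b) : (dmat p G b ^ m) u v =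
      ((∏ i ∈ Finset.range m, expand (p ^ i) G) * monomial v.1 1).coeff (p ^ m • u.1) := by
  induction m generalizing v with
  | zero =>
    rw [pow_zero, Finset.range_zero, Finset.prod_empty, one_mul, pow_zero, one_smul, coeff_monomial,
      Matrix.one_apply]
    exact if_congr ⟨fun h => by rw [h], fun h => Subtype.ext h.symm⟩ rfl rfl
  | succ m ih =>
    have hF : (G * monomial v.1 (1 : R)).totalDegree ≤ 2 * b := by
      refine (totalDegree_mul _ _).trans ?_
      have h1 : (monomial v.1 (1 : R)).totalDegree ≤ b := (totalDegree_monomial_le _ _).trans v.2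
      omega
    have e : ∏ i ∈ Finset.range (m + 1), expand (p ^ i) G =
        expand p (∏ i ∈ Finset.range m, expand (p ^ i) G) * G := by
      rw [Finset.prod_range_succ', pow_zero, expand_one_apply, map_prod]
      simp only [pow_succ', expand_mul]
    rw [pow_succ, Matrix.mul_apply, e, mul_assoc, pow_succ', mul_smul, key hp hF]
    refine Finset.sum_congr rfl fun w _ => ?_
    rw [ih, coeff_mul_monomial' _ _ _ G, mul_one]
    rfl

lemma root_sum [Field R] [IsAlgClosed R] [CharZero R] {N : ℕ} (hN : 0 < N) (k : ℕ) :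
    ∑ z ∈ Polynomial.nthRootsFinset N (1 : R), z ^ k = if N ∣ k then (N : R) else 0 := by
  have : NeZero N := ⟨hN.ne'⟩
  obtain ⟨ζ, hζ⟩ := HasEnoughRootsOfUnity.exists_primitiveRoot R N
  split_ifs with h
  · obtain ⟨l, rfl⟩ := h
    rw [Finset.sum_congr rfl (g := fun _ => (1 : R)) fun z hz => by
      rw [pow_mul, (Polynomial.mem_nthRootsFinset hN 1).1 hz, one_pow]]
    simp [hζ.card_nthRootsFinset]
  · have h0 : ζ ≠ 0 := hζ.ne_zero hN.ne'
    have h1 : ∑ z ∈ Polynomial.nthRootsFinset N (1 : R), (ζ * z) ^ k =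
        ∑ z ∈ Polynomial.nthRootsFinset N (1 : R), z ^ k := by
      refine Finset.sum_nbij' (fun z => ζ * z) (fun z => ζ⁻¹ * z) ?_ ?_ ?_ ?_ fun _ _ => rfl
      · intro z hz
        rw [Polynomial.mem_nthRootsFinset hN] at hz ⊢
        rw [mul_pow, hz, hζ.pow_eq_one, one_mul]
      · intro z hz
        rw [Polynomial.mem_nthRootsFinset hN] at hz ⊢
        rw [mul_pow, hz, inv_pow, hζ.pow_eq_one, inv_one, one_mul]
      · exact fun z _ => inv_mul_cancel_left₀ h0 z
      · exact fun z _ => mul_inv_cancel_left₀ h0 z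
    simp only [mul_pow, ← Finset.mul_sum] at h1
    have h2 : ζ ^ k - 1 ≠ 0 := sub_ne_zero.2 fun e => h (hζ.dvd_of_pow_eq_one k e)
    exact (mul_eq_zero.1 (by rw [sub_mul, one_mul, h1, sub_self])).resolve_left h2

open Classical in
lemma char_sum [Field R] [IsAlgClosed R] [CharZero R] [Fintype ι] {N b : ℕ} (hN : 0 < N)
    {H : MvPolynomial ι R} (hH : H.totalDegree ≤ N * b) :
    ∑ x ∈ Fintype.piFinset fun _ : ι => Polynomial.nthRootsFinset N (1 : R), eval x H =
      (N : R) ^ Fintype.card ι * ∑ u : Ex ι b, H.coeff (N • u.1) := by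
  have h1 : ∀ t ∈ H.support,
      ∑ x ∈ Fintype.piFinset fun _ : ι => Polynomial.nthRootsFinset N (1 : R),
        eval x (monomial t (H.coeff t)) =
      (N : R) ^ Fintype.card ι * ∑ u : Ex ι b, (monomial t (H.coeff t)).coeff (N • u.1) := by
    intro t ht
    simp only [eval_monomial, Finsupp.prod_pow, ← Finset.mul_sum, coeff_monomial]
    rw [← Finset.prod_univ_sum (fun _ : ι => Polynomial.nthRootsFinset N (1 : R))
      fun j z => z ^ t j]
    simp only [root_sum hN]
    by_cases hd : ∀ j, N ∣ t j
    · obtain ⟨u, rfl⟩ : ∃ u : ι →₀ ℕ, t = N • u :=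
        ⟨t.mapRange (· / N) (by simp), by
          ext j
          simp [Nat.mul_div_cancel' (hd j)]⟩
      have hu : u.degree ≤ b := by
        have h2 : (N • u).degree ≤ H.totalDegree := le_totalDegree ht
        rw [map_nsmul, smul_eq_mul] at h2
        exact Nat.le_of_mul_le_mul_left (h2.trans hH) hN
      rw [Finset.prod_congr rfl (g := fun _ => (N : R)) fun j _ => if_pos (hd j),
        Finset.sum_eq_single (⟨u, hu⟩ : Ex ι b), if_pos rfl, Finset.prod_const, Finset.card_univ,
        mul_comm]
      · intro w _ hw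
        refine if_neg fun h => hw (Subtype.ext ?_)
        ext j
        have := DFunLike.congr_fun h j
        simp only [Finsupp.smul_apply, smul_eq_mul] at this
        exact (Nat.eq_of_mul_eq_mul_left hN this).symm
      · simp
    · obtain ⟨j, hj⟩ := not_forall.1 hd
      rw [Finset.prod_eq_zero (Finset.mem_univ j) (if_neg hj), mul_zero, Finset.sum_eq_zero, mul_zero]
      intro w _
      refine if_neg fun h => hj ?_
      rw [h]
      exact ⟨w.1 j, by simp⟩
  conv_lhs => rw [H.as_sum]
  conv_rhs => rw [H.as_sum]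
  simp only [map_sum, coeff_sum]
  rw [Finset.sum_comm, Finset.sum_comm (s := Finset.univ), Finset.mul_sum]
  exact Finset.sum_congr rfl h1

end Trace

open Classical in
theorem trace_formula {R ι : Type} [Field R] [IsAlgClosed R] [CharZero R] [Fintype ι] {p : ℕ}
    (hp : 2 ≤ p) (G : MvPolynomial ι R) {b : ℕ} (hb : G.totalDegree ≤ b) {m : ℕ} (hm : 0 < m) :
    ∑ x ∈ Fintype.piFinset fun _ : ι => Polynomial.nthRootsFinset (p ^ m - 1) (1 : R),
      ∏ i ∈ Finset.range m, eval (fun j => x j ^ p ^ i) G =
        ((p : R) ^ m - 1) ^ Fintype.card ι * (dmat p G b ^ m).trace := by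
  have h1 : 1 < p ^ m := Nat.one_lt_pow hm.ne' hp
  have hH : (∏ i ∈ Finset.range m, expand (p ^ i) G).totalDegree ≤ (p ^ m - 1) * b := by
    refine (totalDegree_finsetProd _ _).trans ?_
    simp only [totalDegree_expand, ← Finset.mul_sum]
    rw [mul_comm]
    exact Nat.mul_le_mul (Nat.le_sub_one_of_lt (Nat.geomSum_lt hp (by simp))) hb
  have h2 := Trace.char_sum (Nat.sub_pos_of_lt h1) hH
  rw [Nat.cast_sub h1.le, Nat.cast_pow, Nat.cast_one] at h2
  simp only [map_prod, eval_expand] at h2
  refine h2.trans (congrArg _ (Finset.sum_congr rfl fun u _ => ?_))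
  have h3 : p ^ m • u.1 - u.1 = (p ^ m - 1) • u.1 := by
    ext j
    simp [Nat.sub_mul]
  rw [Matrix.diag_apply, Trace.pow_apply hp hb, coeff_mul_monomial', mul_one, if_pos, h3]
  intro j
  simpa using Nat.le_mul_of_pos_left _ (by omega)

end Pool.Agent.Lib.MP_557161_ag.DW
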