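import Pool.Agent.Lib.MP_557161_ag.DW.Mer
import Pool.Agent.Lib.MP_557161_ag.DW.Trace
import Pool.Agent.Lib.MP_557161_ag.DW.Det

/-!
Exponential sums.
-/

noncomputable section

namespace Pool.Agent.Lib.MP_557161_ag.DW

open MvPolynomial Filter Topology

variable {p : ℕ} [Fact p.Prime] {K : Type} [Field K] [Algebra (ZMod p) K] {θ : ℕ → ℂ_[p]} {c : ℝ}
  {τ : K →*₀ ℂ_[p]} {ι : Type} [Finite ι]

namespace Sum

omit [Algebra (ZMod p) K] in
theorem psi_zero (h : Split θ c τ) (m : ℕ) : psi θ τ m (0 : K) = 1 := by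
  refine Finset.prod_eq_one fun i _ => ?_
  rw [map_zero, zero_pow (pow_ne_zero i (Fact.out : p.Prime).ne_zero), tsum_eq_single 0]
  · rw [pow_zero, mul_one, h.zero]
  · intro k hk
    rw [zero_pow hk, mul_zero]

theorem fix_add {m : ℕ} {x y : K} (hx : x ^ p ^ m = x) (hy : y ^ p ^ m = y) :
    (x + y) ^ p ^ m = x + y := by
  have : CharP K p := charP_of_injective_algebraMap (algebraMap (ZMod p) K).injective p
  rw [add_pow_char_pow, hx, hy]

theorem psi_nsmul (h : Split θ c τ) {m : ℕ} (hm : 0 < m) {x : K} (hx : x ^ p ^ m = x) (n : ℕ) :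
    ((n : K) * x) ^ p ^ m = n * x ∧ psi θ τ m ((n : K) * x) = psi θ τ m x ^ n := by
  induction n with
  | zero =>
    rw [Nat.cast_zero, zero_mul, pow_zero]
    exact ⟨zero_pow (pow_ne_zero m (Fact.out : p.Prime).ne_zero), psi_zero h m⟩
  | succ n ih =>
    rw [Nat.cast_succ, add_mul, one_mul]
    exact ⟨fix_add ih.1 hx, by rw [h.add m hm _ _ ih.1 hx, ih.2, pow_succ]⟩

theorem psi_sum (h : Split θ c τ) {m : ℕ} (hm : 0 < m) {α : Type} (S : Finset α) (f : α → K)
    (hf : ∀ a ∈ S, f a ^ p ^ m = f a) :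
    (∑ a ∈ S, f a) ^ p ^ m = ∑ a ∈ S, f a ∧
      psi θ τ m (∑ a ∈ S, f a) = ∏ a ∈ S, psi θ τ m (f a) := by
  classical
  induction S using Finset.induction_on with
  | empty =>
    rw [Finset.sum_empty, Finset.prod_empty]
    exact ⟨zero_pow (pow_ne_zero m (Fact.out : p.Prime).ne_zero), psi_zero h m⟩
  | insert a S ha ih =>
    have h1 := hf a (Finset.mem_insert_self _ _)
    have h2 := ih fun b hb => hf b (Finset.mem_insert_of_mem hb)
    rw [Finset.sum_insert ha, Finset.prod_insert ha]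
    exact ⟨fix_add h1 h2.1, by rw [h.add m hm _ _ h1 h2.1, h2.2]⟩

omit [Finite ι] [Fact p.Prime] [Algebra (ZMod p) K] in
theorem fix_mon [Fintype ι] {m : ℕ} {x : ι → K} (hx : ∀ i, x i ^ p ^ m = x i) (w : ι →₀ ℕ) :
    (∏ i, x i ^ w i) ^ p ^ m = ∏ i, x i ^ w i := by
  rw [← Finset.prod_pow]
  exact Finset.prod_congr rfl fun i _ => by rw [pow_right_comm, hx i]

omit [Finite ι] in
theorem psi_aeval [Fintype ι] (h : Split θ c τ) {m : ℕ} (hm : 0 < m) {x : ι → K}
    (hx : ∀ i, x i ^ p ^ m = x i) (g : MvPolynomial ι (ZMod p)) :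
    psi θ τ m (aeval x g) =
      ∏ w ∈ g.support, psi θ τ m (∏ i, x i ^ w i) ^ (g.coeff w).val := by
  have e : aeval x g = ∑ w ∈ g.support, ((g.coeff w).val : K) * ∏ i, x i ^ w i := by
    rw [aeval_def, eval₂_eq']
    refine Finset.sum_congr rfl fun w _ => ?_
    rw [← map_natCast (algebraMap (ZMod p) K), ZMod.natCast_zmod_val]
  rw [e, (psi_sum h hm _ _ fun w _ => (psi_nsmul h hm (fix_mon hx w) _).1).2]
  exact Finset.prod_congr rfl fun w _ => (psi_nsmul h hm (fix_mon hx w) _).2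

omit [Algebra (ZMod p) K] in
theorem psi_lim (h : Split θ c τ) {m : ℕ} (hm : 0 < m) {y : K} (hy : y ^ p ^ m = y) :
    Tendsto (fun L => ∏ i ∈ Finset.range m, ∑ k ∈ Finset.range L, θ k * (τ y ^ p ^ i) ^ k)
      atTop (𝓝 (psi θ τ m y)) := by
  have h1 : ‖τ y‖ ≤ 1 := by
    by_contra hc
    have h2 := pow_lt_pow_right₀ (not_le.1 hc)
      (Nat.one_lt_pow hm.ne' (Fact.out : p.Prime).one_lt)
    rw [← norm_pow, ← norm_pow, ← map_pow, ← map_pow, hy, pow_one] at h2
    exact lt_irrefl _ h2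
  refine tendsto_finsetProd _ fun i _ => (Summable.hasSum ?_).tendsto_sum_nat
  refine Summable.of_norm_bounded (summable_geometric_of_lt_one h.pos.le h.lt) fun k => ?_
  rw [norm_mul, norm_pow, norm_pow]
  exact (mul_le_of_le_one_right (norm_nonneg _)
    (pow_le_one₀ (by positivity) (pow_le_one₀ (norm_nonneg _) h1))).trans (h.bound k)

/-- Polynomials with geometrically decaying coefficients. -/
def Bd (r : ℝ) (G : MvPolynomial ι ℂ_[p]) : Prop := ∀ w, ‖G.coeff w‖ ≤ r ^ w.degree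

omit [Finite ι] in
theorem bd_sum {r : ℝ} (hr : 0 < r) {α : Type} (S : Finset α) {G : α → MvPolynomial ι ℂ_[p]}
    (hG : ∀ a ∈ S, Bd r (G a)) : Bd r (∑ a ∈ S, G a) := fun w => by
  rw [coeff_sum]
  exact IsUltrametricDist.norm_sum_le_of_forall_le_of_nonneg (by positivity) fun a ha => hG a ha w

omit [Finite ι] in
theorem bd_monomial {r : ℝ} (hr : 0 < r) {v : ι →₀ ℕ} {a : ℂ_[p]} (ha : ‖a‖ ≤ r ^ v.degree) :
    Bd r (monomial v a) := fun w => by
  classical
  rw [coeff_monomial]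
  split_ifs with h
  · rwa [← h]
  · rw [norm_zero]
    positivity

omit [Finite ι] in
theorem bd_mul {r : ℝ} (hr : 0 < r) {G H : MvPolynomial ι ℂ_[p]} (hG : Bd r G) (hH : Bd r H) :
    Bd r (G * H) := fun w => by
  classical
  rw [coeff_mul]
  refine IsUltrametricDist.norm_sum_le_of_forall_le_of_nonneg (by positivity) fun a ha => ?_
  rw [norm_mul, ← Finset.HasAntidiagonal.mem_antidiagonal.1 ha, map_add, pow_add]
  exact mul_le_mul (hG _) (hH _) (norm_nonneg _) (by positivity)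

omit [Finite ι] in
theorem bd_one {r : ℝ} (hr : 0 < r) : Bd r (1 : MvPolynomial ι ℂ_[p]) :=
  bd_monomial (v := 0) hr (by rw [norm_one, map_zero, pow_zero])

/-- The truncated Frobenius series. -/
def trunc (θ : ℕ → ℂ_[p]) (g : MvPolynomial ι (ZMod p)) (L : ℕ) : MvPolynomial ι ℂ_[p] :=
  ∏ w ∈ g.support, (∑ k ∈ Finset.range L, monomial (k • w) (θ k)) ^ (g.coeff w).val

omit [Finite ι] [Algebra (ZMod p) K] in
theorem bd_trunc (h : Split θ c τ) (g : MvPolynomial ι (ZMod p)) :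
    ∃ r : ℝ, 0 < r ∧ r < 1 ∧ ∀ L, Bd r (trunc θ g L) := by
  have hD : g.totalDegree + 1 ≠ 0 := Nat.succ_ne_zero _
  have h1 := Real.rpow_inv_natCast_pow h.pos.le hD
  have h0 : 0 < c ^ (((g.totalDegree + 1 : ℕ) : ℝ)⁻¹) := Real.rpow_pos_of_pos h.pos _
  have h2 : c ^ (((g.totalDegree + 1 : ℕ) : ℝ)⁻¹) < 1 :=
    Real.rpow_lt_one h.pos.le h.lt (by positivity)
  generalize c ^ (((g.totalDegree + 1 : ℕ) : ℝ)⁻¹) = r at h0 h1 h2
  refine ⟨r, h0, h2, fun L => ?_⟩
  refine Finset.prod_induction _ (Bd r) (fun _ _ => bd_mul h0) (bd_one h0) fun w hw => ?_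
  have h3 : Bd r (∑ k ∈ Finset.range L, monomial (k • w) (θ k)) := by
    refine bd_sum h0 _ fun k _ => bd_monomial h0 ((h.bound k).trans ?_)
    rw [← h1, ← pow_mul, map_nsmul, smul_eq_mul, mul_comm k]
    exact pow_le_pow_of_le_one h0.le h2.le
      (Nat.mul_le_mul_right _ ((le_totalDegree hw).trans (Nat.le_succ _)))
  generalize (g.coeff w).val = n
  induction n with
  | zero => rw [pow_zero]; exact bd_one h0
  | succ n ih => rw [pow_succ]; exact bd_mul h0 ih h3

omit [Finite ι] in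
theorem trunc_lim [Fintype ι] (h : Split θ c τ) {m : ℕ} (hm : 0 < m) {x : ι → K}
    (hx : ∀ i, x i ^ p ^ m = x i) (g : MvPolynomial ι (ZMod p)) :
    Tendsto (fun L => ∏ i ∈ Finset.range m, eval (fun j => τ (x j) ^ p ^ i) (trunc θ g L))
      atTop (𝓝 (psi θ τ m (aeval x g))) := by
  rw [psi_aeval h hm hx]
  refine (tendsto_finsetProd _ fun w _ => (psi_lim h hm (fix_mon hx w)).pow _).congr fun L => ?_
  simp only [trunc, map_prod, map_pow, map_sum, eval_monomial]
  rw [Finset.prod_comm]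
  refine Finset.prod_congr rfl fun w _ => ?_
  rw [← Finset.prod_pow]
  refine Finset.prod_congr rfl fun i _ => ?_
  congr 1
  refine Finset.sum_congr rfl fun k _ => ?_
  rw [Finsupp.prod_fintype _ _ fun _ => pow_zero _, ← Finset.prod_pow, ← Finset.prod_pow]
  congr 1
  refine Finset.prod_congr rfl fun j _ => ?_
  rw [Finsupp.smul_apply, smul_eq_mul, pow_right_comm _ (w j), ← pow_mul _ (w j), mul_comm]

omit [Algebra (ZMod p) K] in
theorem fin_aff {m : ℕ} (hm : 0 < m) : {x : ι → K | ∀ i, x i ^ p ^ m = x i}.Finite := by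
  have h1 := Polynomial.finite_setOfPred_isRoot
    (FiniteField.X_pow_card_pow_sub_X_ne_zero K hm.ne' (Fact.out : p.Prime).one_lt)
  refine (Set.Finite.pi' fun _ : ι => h1).subset fun x hx i => ?_
  simp [hx i]

omit [Algebra (ZMod p) K] in
theorem fin_tor {m : ℕ} (hm : 0 < m) :
    {x : ι → K | ∀ i, x i ≠ 0 ∧ x i ^ p ^ m = x i}.Finite :=
  (fin_aff hm).subset fun _ hx i => (hx i).2

omit [Algebra (ZMod p) K] in
theorem root_iff {R : Type} [Field R] {m : ℕ} (hm : 0 < m) {z : R} :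
    z ∈ Polynomial.nthRootsFinset (p ^ m - 1) (1 : R) ↔ z ≠ 0 ∧ z ^ p ^ m = z := by
  have h1 : 1 < p ^ m := Nat.one_lt_pow hm.ne' (Fact.out : p.Prime).one_lt
  have h2 : z ^ p ^ m = z ^ (p ^ m - 1) * z := by rw [← pow_succ, Nat.sub_add_cancel h1.le]
  rw [Polynomial.mem_nthRootsFinset (Nat.sub_pos_of_lt h1), h2]
  constructor
  · intro h
    refine ⟨fun h0 => ?_, by rw [h, one_mul]⟩
    rw [h0, zero_pow (Nat.sub_pos_of_lt h1).ne'] at h
    exact zero_ne_one h
  · exact fun h => (mul_eq_right₀ h.1).1 h.2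

open Classical in
omit [Algebra (ZMod p) K] in
theorem sum_tor [Fintype ι] (h : Split θ c τ) {m : ℕ} (hm : 0 < m) (F : (ι → ℂ_[p]) → ℂ_[p]) :
    ∑ x ∈ (fin_tor (p := p) (K := K) (ι := ι) hm).toFinset, F (fun j => τ (x j)) =
      ∑ z ∈ Fintype.piFinset fun _ : ι => Polynomial.nthRootsFinset (p ^ m - 1) (1 : ℂ_[p]),
        F z := by
  refine Finset.sum_nbij (fun x j => τ (x j)) (fun x hx => ?_) (fun x _ y _ e => ?_)
    (fun z hz => ?_) fun _ _ => rfl
  · rw [Set.Finite.mem_toFinset] at hx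
    exact Fintype.mem_piFinset.2 fun j => (root_iff hm).2
      ⟨(map_ne_zero τ).2 (hx j).1, by rw [← map_pow, (hx j).2]⟩
  · exact funext fun j => h.inj (congrFun e j)
  · have h1 := fun j => (root_iff hm).1 (Fintype.mem_piFinset.1 hz j)
    choose x hx using fun j => h.surj m hm (z j) (h1 j).2
    refine ⟨x, ?_, funext hx⟩
    rw [Finset.mem_coe, Set.Finite.mem_toFinset]
    intro j
    refine ⟨fun h0 => (h1 j).1 (by rw [← hx j, h0, map_zero]), h.inj ?_⟩
    rw [map_pow, hx j, (h1 j).2]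

end Sum

theorem mer_torus (h : Split θ c τ) (g : MvPolynomial ι (ZMod p)) :
    Mer fun m => ∑ᶠ x ∈ {x : ι → K | ∀ i, x i ≠ 0 ∧ x i ^ p ^ m = x i}, psi θ τ m (aeval x g) := by
  classical
  have := Fintype.ofFinite ι
  obtain ⟨r, r0, r1, hr⟩ := Sum.bd_trunc h g
  obtain ⟨e, he, hb⟩ := det_bound p ι
  have hne : ∀ m, 0 < m → ((p : ℂ_[p]) ^ m - 1) ^ Fintype.card ι ≠ 0 := fun m hm => by
    refine pow_ne_zero _ (sub_ne_zero.2 ?_)
    exact_mod_cast (Nat.one_lt_pow hm.ne' (Fact.out : p.Prime).one_lt).ne'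
  have key : Mer fun m => (∑ᶠ x ∈ {x : ι → K | ∀ i, x i ≠ 0 ∧ x i ^ p ^ m = x i},
      psi θ τ m (aeval x g)) / ((p : ℂ_[p]) ^ m - 1) ^ Fintype.card ι := by
    refine mer_of_limit (u := fun L t => (dmat p (Sum.trunc θ g L) (Sum.trunc θ g L).totalDegree ^
      t).trace) (D := fun L => ((dmat p (Sum.trunc θ g L)
        (Sum.trunc θ g L).totalDegree).charpolyRev : PowerSeries ℂ_[p])) r0 r1 he
      (fun L => ?_) (fun L => newton _) (fun L j => ?_) fun m hm => ?_
    · rw [Polynomial.constantCoeff_coe, Polynomial.coeff_zero_eq_eval_zero,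
        Matrix.eval_charpolyRev]
    · rw [Polynomial.coeff_coe]
      exact hb r _ _ r0 r1 (hr L) j
    · rw [finsum_mem_eq_finite_toFinset_sum _ (Sum.fin_tor hm)]
      refine ((tendsto_finsetSum _ fun x hx => Sum.trunc_lim h hm
        (fun i => ((Set.Finite.mem_toFinset _).1 hx i).2) g).div_const _).congr fun L => ?_
      rw [div_eq_iff (hne m hm), mul_comm,
        ← trace_formula (Fact.out : p.Prime).two_le _ le_rfl hm]
      exact Sum.sum_tor h hm fun z =>
        ∏ i ∈ Finset.range m, eval (fun j => z j ^ p ^ i) (Sum.trunc θ g L)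
  exact (key.mul_pow p (Fintype.card ι)).congr fun m hm => (mul_div_cancel₀ _ (hne m hm)).symm

theorem mer_affine (h : Split θ c τ) (g : MvPolynomial ι (ZMod p)) :
    Mer fun m => ∑ᶠ x ∈ {x : ι → K | ∀ i, x i ^ p ^ m = x i}, psi θ τ m (aeval x g) := by
  classical
  have := Fintype.ofFinite ι
  refine (Mer.sum Finset.univ fun (S : Finset ι) _ => mer_torus h
    (aeval (fun i => if hi : i ∈ S then (X ⟨i, hi⟩ : MvPolynomial S (ZMod p)) else 0) g)).congr
    fun m hm => ?_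
  rw [finsum_mem_eq_finite_toFinset_sum _ (Sum.fin_aff hm),
    ← Finset.sum_fiberwise _ fun x : ι → K => Finset.univ.filter fun i => x i ≠ 0]
  refine Finset.sum_congr rfl fun S _ => ?_
  rw [finsum_mem_eq_finite_toFinset_sum _ (Sum.fin_tor hm)]
  symm
  refine Finset.sum_nbij (fun y i => if hi : i ∈ S then y ⟨i, hi⟩ else 0) (fun y hy => ?_)
    (fun y _ z _ e => ?_) (fun x hx => ?_) fun y _ => ?_
  · rw [Set.Finite.mem_toFinset] at hy
    rw [Finset.mem_filter, Set.Finite.mem_toFinset]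
    refine ⟨fun i => ?_, ?_⟩
    · by_cases hi : i ∈ S
      · simp only [dif_pos hi]
        exact (hy _).2
      · simp only [dif_neg hi]
        exact zero_pow (pow_ne_zero m (Fact.out : p.Prime).ne_zero)
    · ext i
      by_cases hi : i ∈ S
      · simpa [hi] using (hy ⟨i, hi⟩).1
      · simp [hi]
  · funext j
    simpa [j.2] using congrFun e j
  · rw [Finset.mem_coe, Finset.mem_filter, Set.Finite.mem_toFinset] at hx
    have hS : ∀ i, i ∈ S ↔ x i ≠ 0 := fun i => by rw [← hx.2]; simp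
    refine ⟨fun j => x j, ?_, funext fun i => ?_⟩
    · rw [Finset.mem_coe, Set.Finite.mem_toFinset]
      exact fun j => ⟨(hS _).1 j.2, hx.1 _⟩
    · by_cases hi : i ∈ S
      · simp only [dif_pos hi]
      · simp only [dif_neg hi]
        exact (not_not.1 fun h0 => hi ((hS i).2 h0)).symm
  · congr 1
    rw [← AlgHom.comp_apply, comp_aeval]
    congr 2
    funext i
    split_ifs <;> simp

end Pool.Agent.Lib.MP_557161_ag.DW
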