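import Pool.Agent.Lib.MP_557161_ag.DW.Defs

/-!
The splitting function `exp (π T - π T ^ p)`.
-/

noncomputable section

namespace Pool.Agent.Lib.MP_557161_ag.DW

namespace Theta

open PowerSeries Finset

section Formal

variable {K : Type} [Field K]

/-- The operator `T d/dT`. -/
def dd (f : PowerSeries K) : PowerSeries K := PowerSeries.mk fun n => n * coeff n f

lemma coeff_dd (f : PowerSeries K) (n : ℕ) : coeff n (dd f) = n * coeff n f := coeff_mk _ _

lemma dd_mul (f g : PowerSeries K) : dd (f * g) = dd f * g + f * dd g := by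
  ext n
  simp only [coeff_dd, map_add, coeff_mul, mul_sum, ← sum_add_distrib]
  refine sum_congr rfl fun x hx => ?_
  rw [← mem_antidiagonal.1 hx]
  push_cast
  ring

/-- `f` is the formal exponential of the series whose image under `T d/dT` is `g`. -/
def Sol (g f : PowerSeries K) : Prop := coeff 0 g = 0 ∧ coeff 0 f = 1 ∧ dd f = g * f

lemma coeff_mul_range {g : PowerSeries K} (h : coeff 0 g = 0) (f : PowerSeries K) (n : ℕ) :
    coeff n (g * f) = ∑ j ∈ range n, coeff j f * coeff (n - j) g := by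
  rw [mul_comm, coeff_mul, Nat.sum_antidiagonal_eq_sum_range_succ_mk, sum_range_succ]
  simp only [Nat.sub_self, h, mul_zero, add_zero]

lemma Sol.step {g f : PowerSeries K} (h : Sol g f) (n : ℕ) :
    n * coeff n f = ∑ j ∈ range n, coeff j f * coeff (n - j) g := by
  rw [← coeff_dd, h.2.2, coeff_mul_range h.1]

lemma Sol.unique [CharZero K] {g f f' : PowerSeries K} (h : Sol g f) (h' : Sol g f') : f = f' := by
  ext n
  induction n using Nat.strong_induction_on with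
  | _ n ih =>
    rcases Nat.eq_zero_or_pos n with rfl | hn
    · rw [h.2.1, h'.2.1]
    · have hn' : (n : K) ≠ 0 := by exact_mod_cast hn.ne'
      apply mul_left_cancel₀ hn'
      rw [h.step, h'.step]
      exact sum_congr rfl fun j hj => by rw [ih j (mem_range.1 hj)]

/-- The coefficients of the solution. -/
def sc (g : ℕ → K) (n : ℕ) : K :=
  if n = 0 then 1 else (n : K)⁻¹ * ∑ j : Fin n, sc g j * g (n - j)
termination_by n
decreasing_by exact j.2

lemma exists_sol [CharZero K] {g : PowerSeries K} (h : coeff 0 g = 0) : ∃ f, Sol g f := by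
  refine ⟨PowerSeries.mk (sc fun n => coeff n g), h, by rw [coeff_mk, sc, if_pos rfl], ?_⟩
  ext n
  rw [coeff_dd, coeff_mul_range h, coeff_mk, sc]
  split_ifs with hn
  · simp [hn]
  · have hn' : (n : K) ≠ 0 := by exact_mod_cast hn
    rw [mul_inv_cancel_left₀ hn', ← Fin.sum_univ_eq_sum_range]
    simp only [coeff_mk]

lemma Sol.mul {g f g' f' : PowerSeries K} (h : Sol g f) (h' : Sol g' f') :
    Sol (g + g') (f * f') := by
  refine ⟨by rw [map_add, h.1, h'.1, add_zero], ?_, ?_⟩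
  · rw [coeff_mul, Nat.antidiagonal_zero, sum_singleton, h.2.1, h'.2.1, one_mul]
  · rw [dd_mul, h.2.2, h'.2.2]; ring

lemma Sol.pow {g f : PowerSeries K} (h : Sol g f) (m : ℕ) : Sol (C (m : K) * g) (f ^ m) := by
  induction m with
  | zero =>
    refine ⟨by simp, by simp, ?_⟩
    ext n
    rw [coeff_dd, pow_zero, coeff_one]
    split_ifs with hn <;> simp [*]
  | succ m ih =>
    have := ih.mul h
    rwa [← pow_succ, show C (m : K) * g + g = C ((m + 1 : ℕ) : K) * g by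
      rw [Nat.cast_succ, map_add, map_one]; ring] at this

lemma Sol.rescale {g f : PowerSeries K} (h : Sol g f) (a : K) :
    Sol (rescale a g) (rescale a f) := by
  refine ⟨by simp [coeff_rescale, h.1], by simp [coeff_rescale, h.2.1], ?_⟩
  rw [← map_mul, ← h.2.2]
  ext n
  simp only [coeff_dd, coeff_rescale]
  ring

lemma Sol.expand {g f : PowerSeries K} (h : Sol g f) (q : ℕ) (hq : q ≠ 0) :
    Sol (C (q : K) * expand q hq g) (expand q hq f) := by
  refine ⟨?_, ?_, ?_⟩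
  · rw [coeff_C_mul, coeff_expand, if_pos (dvd_zero q), Nat.zero_div, h.1, mul_zero]
  · rw [coeff_expand, if_pos (dvd_zero q), Nat.zero_div, h.2.1]
  rw [mul_assoc, ← map_mul, ← h.2.2]
  ext n
  simp only [coeff_C_mul, coeff_dd, coeff_expand]
  split_ifs with hn
  · obtain ⟨m, rfl⟩ := hn
    rw [Nat.mul_div_cancel_left _ (Nat.pos_of_ne_zero hq)]
    push_cast
    ring
  · simp

lemma Sol.map {K' : Type} [Field K'] (φ : K →+* K') {g f : PowerSeries K} (h : Sol g f) :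
    Sol (map φ g) (map φ f) := by
  refine ⟨by simp [coeff_map, h.1], by simp [coeff_map, h.2.1], ?_⟩
  rw [← map_mul, ← h.2.2]
  ext n
  simp [coeff_dd]

lemma Sol.exp_coeff {a : K} {f : PowerSeries K} (h : Sol (C a * X) f) (n : ℕ) :
    (n.factorial : K) * coeff n f = a ^ n := by
  induction n with
  | zero => simp [h.2.1]
  | succ n ih =>
    have h1 := congrArg (coeff (n + 1)) h.2.2
    rw [coeff_dd, mul_assoc, coeff_C_mul, coeff_succ_X_mul] at h1
    rw [Nat.factorial_succ, pow_succ, ← ih]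
    push_cast at h1 ⊢
    linear_combination (n.factorial : K) * h1

open Classical in
/-- The series `∑ T ^ p ^ i`. -/
def G (K : Type) [Field K] (p : ℕ) : PowerSeries K :=
  PowerSeries.mk fun n => if ∃ i, n = p ^ i then 1 else 0

lemma G_zero {p : ℕ} (hp : p ≠ 0) : coeff 0 (G K p) = 0 := by
  rw [G, coeff_mk, if_neg]
  rintro ⟨i, hi⟩
  exact pow_ne_zero i hp hi.symm

lemma G_eq {p : ℕ} (hp : p.Prime) : G K p = X + expand p hp.ne_zero (G K p) := by
  classical
  ext n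
  rw [map_add, coeff_expand, coeff_X, G, coeff_mk, coeff_mk]
  by_cases h : p ∣ n
  · obtain ⟨m, rfl⟩ := h
    have h1 : p * m ≠ 1 := fun h => hp.ne_one (Nat.eq_one_of_mul_eq_one_right h)
    rw [if_neg h1, if_pos (dvd_mul_right p m), Nat.mul_div_cancel_left _ hp.pos, zero_add]
    refine if_congr ⟨?_, ?_⟩ rfl rfl
    · rintro ⟨i, hi⟩
      rcases i with _ | i
      · exact absurd hi h1
      · exact ⟨i, Nat.eq_of_mul_eq_mul_left hp.pos (by rw [hi, pow_succ'])⟩
    · rintro ⟨i, rfl⟩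
      exact ⟨i + 1, by rw [pow_succ']⟩
  · rw [if_neg h, add_zero]
    refine if_congr ⟨?_, ?_⟩ rfl rfl
    · rintro ⟨i, rfl⟩
      rcases i with _ | i
      · rfl
      · exact absurd (dvd_pow_self p i.succ_ne_zero) h
    · rintro rfl
      exact ⟨0, rfl⟩

lemma map_G {K' : Type} [Field K'] (φ : K →+* K') (p : ℕ) : map φ (G K p) = G K' p := by
  ext n
  rw [coeff_map, G, G, coeff_mk, coeff_mk]
  split_ifs <;> simp

end Formal

section Norm

variable {K : Type} [NormedField K] [IsUltrametricDist K]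

omit [IsUltrametricDist K] in
lemma norm_G (p n : ℕ) : ‖coeff n (G K p)‖ ≤ 1 := by
  rw [G, coeff_mk]
  split_ifs <;> simp

lemma norm_coeff_mul {f g : PowerSeries K} {n : ℕ} {c : ℝ} (hc : 0 ≤ c)
    (h : ∀ i j, i + j = n → ‖coeff i f‖ * ‖coeff j g‖ ≤ c) : ‖coeff n (f * g)‖ ≤ c := by
  rw [coeff_mul]
  exact IsUltrametricDist.norm_sum_le_of_forall_le_of_nonneg hc fun x hx =>
    (norm_mul _ _).trans_le (h _ _ (mem_antidiagonal.1 hx))

lemma Sol.bound {g f : PowerSeries K} (h : Sol g f) {M : ℝ} (hM : 1 ≤ M)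
    (hg : ∀ n, ‖coeff n g‖ ≤ M) (n : ℕ) : ‖(n.factorial : K)‖ * ‖coeff n f‖ ≤ M ^ n := by
  induction n using Nat.strong_induction_on with
  | _ n ih =>
    rcases n with _ | n
    · simp [h.2.1]
    · have h1 : (((n + 1).factorial : ℕ) : K) * coeff (n + 1) f =
          ∑ j ∈ range (n + 1), n.factorial * (coeff j f * coeff (n + 1 - j) g) := by
        rw [← mul_sum, ← h.step, Nat.factorial_succ]
        push_cast
        ring
      rw [← norm_mul, h1]
      refine IsUltrametricDist.norm_sum_le_of_forall_le_of_nonneg (by positivity) fun j hj => ?_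
      have hj' := mem_range.1 hj
      obtain ⟨u, hu⟩ := Nat.factorial_dvd_factorial (Nat.lt_succ_iff.1 hj')
      have h2 : ‖(n.factorial : K)‖ ≤ ‖(j.factorial : K)‖ := by
        rw [hu, Nat.cast_mul, norm_mul]
        exact mul_le_of_le_one_right (norm_nonneg _) (IsUltrametricDist.norm_natCast_le_one K u)
      rw [norm_mul, norm_mul, ← mul_assoc, pow_succ]
      refine mul_le_mul (le_trans (mul_le_mul_of_nonneg_right h2 (norm_nonneg _))
        ((ih j hj').trans (pow_le_pow_right₀ hM (Nat.lt_succ_iff.1 hj')))) (hg _) (norm_nonneg _)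
        (by positivity)

end Norm

section Padic

variable {p : ℕ} [hp : Fact p.Prime]

lemma norm_fact {ρ : ℝ} (h0 : 0 ≤ ρ) (h1 : ρ ≤ 1) {e : ℕ} (he : e ≤ p - 1) (h : ρ ^ e ≤ (p : ℝ)⁻¹)
    {n : ℕ} (hn : n ≠ 0) : ρ ^ (n - 1) ≤ ‖(n.factorial : ℚ_[p])‖ := by
  have h2 := sub_one_mul_padicValNat_factorial_lt_of_ne_zero p hn
  have h3 : e * padicValNat p n.factorial ≤ n - 1 :=
    Nat.le_sub_one_of_lt ((Nat.mul_le_mul_right _ he).trans_lt h2)
  rw [Padic.norm_eq_zpow_neg_valuation (by exact_mod_cast n.factorial_ne_zero),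
    Padic.valuation_natCast, zpow_neg, zpow_natCast, ← inv_pow]
  calc ρ ^ (n - 1) ≤ ρ ^ (e * padicValNat p n.factorial) := pow_le_pow_of_le_one h0 h1 h3
    _ = (ρ ^ e) ^ padicValNat p n.factorial := pow_mul _ _ _
    _ ≤ _ := by gcongr

lemma frob (f : PowerSeries ℤ_[p]) (n : ℕ) :
    ‖coeff n (f ^ p) - coeff n (expand p hp.out.ne_zero f)‖ ≤ (p : ℝ)⁻¹ := by
  have h1 : map (frobenius (ZMod p) p) (expand p hp.out.ne_zero (map PadicInt.toZMod f)) =
      map PadicInt.toZMod f ^ p := MvPowerSeries.map_frobenius_expand p hp.out.ne_zero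
  rw [ZMod.frobenius_zmod, map_id, ← map_expand, ← map_pow] at h1
  have h2 := congrArg (coeff n) h1
  rw [id, coeff_map, coeff_map] at h2
  have h3 : coeff n (f ^ p) - coeff n (expand p hp.out.ne_zero f) ∈ RingHom.ker PadicInt.toZMod := by
    rw [RingHom.mem_ker, map_sub, h2, sub_self]
  rw [PadicInt.ker_toZMod, PadicInt.maximalIdeal_eq_span_p, Ideal.mem_span_singleton] at h3
  obtain ⟨u, hu⟩ := h3
  rw [hu, norm_mul, PadicInt.norm_p]
  exact mul_le_of_le_one_right (by positivity) u.norm_le_one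

/-- Integrality of the Artin-Hasse series. -/
lemma artin_hasse {E : PowerSeries ℚ_[p]} (hE : Sol (G ℚ_[p] p) E) (n : ℕ) : ‖coeff n E‖ ≤ 1 := by
  have hp0 := hp.out.ne_zero
  have hp1 : (1 : ℝ) < p := by exact_mod_cast hp.out.one_lt
  have hpi : (0 : ℝ) < (p : ℝ)⁻¹ := by positivity
  obtain ⟨Y, hY⟩ := exists_sol (g := C (p : ℚ_[p]) * X) (by simp)
  have hYb : ∀ k, k ≠ 0 → ‖coeff k Y‖ ≤ (p : ℝ)⁻¹ := fun k hk => by
    have h1 := congrArg norm (hY.exp_coeff k)
    rw [norm_mul, norm_pow, Padic.norm_p] at h1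
    have h2 := norm_fact (p := p) hpi.le (inv_le_one_of_one_le₀ hp1.le) (e := 1)
      (Nat.le_sub_one_of_lt hp.out.one_lt) (pow_one _).le hk
    obtain ⟨m, rfl⟩ := Nat.exists_eq_succ_of_ne_zero hk
    rw [Nat.succ_sub_one] at h2
    refine le_of_mul_le_mul_left ?_ (pow_pos hpi m)
    rw [← pow_succ, ← h1]
    gcongr
  have key : E ^ p = expand p hp0 E * Y := by
    refine (hE.pow p).unique ?_
    have := (hE.expand p hp0).mul hY
    rwa [← mul_add, add_comm, ← G_eq hp.out] at this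
  have hc : ∀ x : ℤ_[p], PadicInt.Coe.ringHom (p := p) x = (x : ℚ_[p]) := fun _ => rfl
  induction n using Nat.strong_induction_on with
  | _ n ih =>
    rcases n with _ | n
    · rw [hE.2.1, norm_one]
    obtain ⟨f, hf⟩ : ∃ f : PowerSeries ℤ_[p], ∀ k, ((coeff k f : ℤ_[p]) : ℚ_[p]) =
        if k < n + 1 then coeff k E else 0 := by
      have : ∀ k, ∃ z : ℤ_[p], (z : ℚ_[p]) = if k < n + 1 then coeff k E else 0 := fun k => by
        split_ifs with h
        · exact ⟨⟨_, ih k h⟩, rfl⟩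
        · exact ⟨0, rfl⟩
      choose z hz using this
      exact ⟨PowerSeries.mk z, fun k => by rw [coeff_mk, hz]⟩
    obtain ⟨r, hr⟩ : X ^ (n + 1) ∣ E - map PadicInt.Coe.ringHom f :=
      X_pow_dvd_iff.2 fun k hk => by
        rw [map_sub, coeff_map, hc, hf, if_pos hk, sub_self]
    have hF0 : coeff 0 (map PadicInt.Coe.ringHom f) = 1 := by
      rw [coeff_map, hc, hf, if_pos n.succ_pos, hE.2.1]
    have hr0 : coeff 0 r = coeff (n + 1) E := by
      have := congrArg (coeff (n + 1)) hr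
      rw [map_sub, coeff_map, hc, hf, if_neg (lt_irrefl _), sub_zero,
        coeff_X_pow_mul', if_pos le_rfl, Nat.sub_self] at this
      exact this.symm
    have h1 := frob f (n + 1)
    rw [PadicInt.norm_def, PadicInt.coe_sub, ← hc, ← coeff_map, map_pow,
      coeff_expand] at h1
    generalize map PadicInt.Coe.ringHom f = F at *
    obtain ⟨s, hs⟩ := Polynomial.powAddExpansion F (X ^ (n + 1) * r) p
    rw [← hr, add_sub_cancel, hr] at hs
    have h2 : coeff (n + 1) (E ^ p) = coeff (n + 1) (F ^ p) + p * coeff (n + 1) E := by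
      rw [hs, show (p : PowerSeries ℚ_[p]) * F ^ (p - 1) * (X ^ (n + 1) * r) =
          X ^ (n + 1) * (C (p : ℚ_[p]) * (F ^ (p - 1) * r)) by rw [map_natCast]; ring,
        show s * (X ^ (n + 1) * r) ^ 2 = X ^ (n + 1) * (X * (X ^ n * s * r ^ 2)) by ring,
        map_add, map_add, coeff_X_pow_mul', coeff_X_pow_mul', if_pos le_rfl, if_pos le_rfl,
        Nat.sub_self, coeff_zero_X_mul, add_zero, coeff_C_mul, ← hr0]
      rw [coeff_zero_eq_constantCoeff] at hF0 ⊢
      rw [map_mul, map_pow constantCoeff, hF0, one_pow, one_mul]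
    have hdiv : ∀ k, k ≤ n + 1 → k / p < n + 1 := fun k hk =>
      (Nat.div_le_div_right hk).trans_lt (Nat.div_lt_self n.succ_pos hp.out.one_lt)
    have h3 : ‖coeff (n + 1) (expand p hp0 E * (Y - 1))‖ ≤ (p : ℝ)⁻¹ :=
      norm_coeff_mul hpi.le fun i j hij => by
        have b1 : ‖coeff i (expand p hp0 E)‖ ≤ 1 := by
          rw [coeff_expand]
          split_ifs
          · exact ih _ (hdiv i (by omega))
          · simp
        have b2 : ‖coeff j (Y - 1)‖ ≤ (p : ℝ)⁻¹ := by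
          rw [map_sub, coeff_one]
          split_ifs with hj
          · rw [hj, hY.2.1, sub_self, norm_zero]; exact hpi.le
          · rw [sub_zero]; exact hYb j hj
        exact (mul_le_mul b1 b2 (norm_nonneg _) zero_le_one).trans (one_mul _).le
    have h4 : ((if p ∣ n + 1 then coeff ((n + 1) / p) f else 0 : ℤ_[p]) : ℚ_[p]) =
        coeff (n + 1) (expand p hp0 E) := by
      rw [coeff_expand]
      split_ifs
      · rw [hf, if_pos (hdiv _ le_rfl)]
      · rfl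
    rw [h4] at h1
    rw [mul_sub, mul_one, ← key, map_sub, h2] at h3
    have h5 : ‖(p : ℚ_[p]) * coeff (n + 1) E‖ ≤ (p : ℝ)⁻¹ := by
      have := (Padic.nonarchimedean _ _).trans (max_le h3 ((norm_neg _).trans_le h1))
      rwa [show ∀ a b c : ℚ_[p], a + b - c + -(a - c) = b from fun a b c => by ring] at this
    rw [norm_mul, Padic.norm_p] at h5
    exact le_of_mul_le_mul_left (h5.trans (mul_one _).ge) hpi

lemma norm_map (x : ℚ_[p]) : ‖algebraMap ℚ_[p] ℂ_[p] x‖ = ‖x‖ := norm_algebraMap' _ _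

lemma norm_nat (n : ℕ) : ‖(n : ℂ_[p])‖ = ‖(n : ℚ_[p])‖ := by rw [← norm_map, map_natCast]

lemma artin_hasse' : ∃ E : PowerSeries ℂ_[p], Sol (G ℂ_[p] p) E ∧ ∀ n, ‖coeff n E‖ ≤ 1 := by
  obtain ⟨E, hE⟩ := exists_sol (G_zero (K := ℚ_[p]) hp.out.ne_zero)
  refine ⟨map (algebraMap ℚ_[p] ℂ_[p]) E, map_G (algebraMap ℚ_[p] ℂ_[p]) p ▸ hE.map _, fun n => ?_⟩
  rw [coeff_map, norm_map]
  exact artin_hasse hE n

/-- Absolutely summable coefficients. -/
def Sm (f : PowerSeries ℂ_[p]) : Prop := Summable fun k => ‖coeff k f‖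

/-- Evaluation. -/
def ev (t : ℂ_[p]) (f : PowerSeries ℂ_[p]) : ℂ_[p] := ∑' k, coeff k f * t ^ k

lemma Sm.mul {f g : PowerSeries ℂ_[p]} (hf : Sm f) (hg : Sm g) : Sm (f * g) := by
  have := summable_norm_sum_mul_antidiagonal_of_summable_norm hf hg
  simpa only [Sm, coeff_mul] using this

lemma Sm.pow {f : PowerSeries ℂ_[p]} (hf : Sm f) (m : ℕ) : Sm (f ^ m) := by
  induction m with
  | zero =>
    refine summable_of_ne_finset_zero (s := {0}) fun k hk => ?_
    rw [pow_zero, coeff_one, if_neg (by simpa using hk), norm_zero]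
  | succ m ih => rw [pow_succ]; exact ih.mul hf

lemma Sm.term {f : PowerSeries ℂ_[p]} (hf : Sm f) {t : ℂ_[p]} (ht : ‖t‖ ≤ 1) :
    Summable fun k => ‖coeff k f * t ^ k‖ :=
  Summable.of_nonneg_of_le (fun _ => norm_nonneg _) (fun k => by
    rw [norm_mul, norm_pow]
    exact mul_le_of_le_one_right (norm_nonneg _) (pow_le_one₀ (norm_nonneg _) ht)) hf

lemma ev_mul {f g : PowerSeries ℂ_[p]} (hf : Sm f) (hg : Sm g) {t : ℂ_[p]} (ht : ‖t‖ ≤ 1) :
    ev t (f * g) = ev t f * ev t g := by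
  rw [ev, ev, ev, tsum_mul_tsum_eq_tsum_sum_antidiagonal_of_summable_norm (hf.term ht) (hg.term ht)]
  refine tsum_congr fun k => ?_
  rw [coeff_mul, sum_mul]
  refine sum_congr rfl fun x hx => ?_
  rw [← mem_antidiagonal.1 hx]
  ring

lemma ev_pow {f : PowerSeries ℂ_[p]} (hf : Sm f) {t : ℂ_[p]} (ht : ‖t‖ ≤ 1) (m : ℕ) :
    ev t (f ^ m) = ev t f ^ m := by
  induction m with
  | zero =>
    rw [pow_zero, pow_zero, ev, tsum_eq_single 0 fun k hk => by rw [coeff_one, if_neg hk, zero_mul]]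
    simp
  | succ m ih => rw [pow_succ, ev_mul (hf.pow m) hf ht, ih, pow_succ]

lemma not_range {q k : ℕ} (hk : k ∉ Set.range fun m => q * m) : ¬ q ∣ k := fun ⟨m, hm⟩ =>
  hk ⟨m, hm.symm⟩

lemma Sm.expand {f : PowerSeries ℂ_[p]} (hf : Sm f) {q : ℕ} (hq : q ≠ 0) : Sm (expand q hq f) := by
  refine ((mul_right_injective₀ hq).summable_iff fun k hk => ?_).1 ?_
  · rw [coeff_expand_of_not_dvd _ _ _ (not_range hk), norm_zero]
  · simpa only [Sm, Function.comp_def, coeff_expand_mul] using hf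

lemma ev_expand (f : PowerSeries ℂ_[p]) {q : ℕ} (hq : q ≠ 0) (t : ℂ_[p]) :
    ev t (expand q hq f) = ev (t ^ q) f := by
  rw [ev, ev, ← (mul_right_injective₀ hq).tsum_eq]
  · simp only [coeff_expand_mul, pow_mul]
  · intro k hk
    by_contra h
    exact hk (by simp only [coeff_expand_of_not_dvd _ _ _ (not_range h), zero_mul])

lemma sm_of_le {f : PowerSeries ℂ_[p]} {c : ℝ} (h0 : 0 ≤ c) (h1 : c < 1)
    (h : ∀ k, ‖coeff k f‖ ≤ c ^ k) : Sm f :=
  Summable.of_nonneg_of_le (fun _ => norm_nonneg _) h (summable_geometric_of_lt_one h0 h1)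

lemma ev_ne_zero {f : PowerSeries ℂ_[p]} {c : ℝ} (h0 : 0 ≤ c) (h1 : c < 1) (hf : coeff 0 f = 1)
    (h : ∀ k, ‖coeff k f‖ ≤ c ^ k) {t : ℂ_[p]} (ht : ‖t‖ ≤ 1) : ev t f ≠ 0 := by
  intro e
  rw [ev, ((sm_of_le h0 h1 h).term ht).of_norm.tsum_eq_zero_add, hf, pow_zero, one_mul] at e
  have h2 : ‖∑' k, coeff (k + 1) f * t ^ (k + 1)‖ ≤ c :=
    IsUltrametricDist.norm_tsum_le_of_forall_le fun k => by
      rw [norm_mul, norm_pow]
      exact (mul_le_of_le_one_right (norm_nonneg _) (pow_le_one₀ (norm_nonneg _) ht)).trans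
        ((h _).trans (pow_le_of_le_one h0 h1.le k.succ_ne_zero))
  rw [eq_neg_of_add_eq_zero_right e, norm_neg, norm_one] at h2
  exact absurd h1 (not_lt.2 h2)

end Padic

end Theta

variable (p : ℕ) [Fact p.Prime]

open Theta PowerSeries in
theorem exists_theta : ∃ (θ : ℕ → ℂ_[p]) (π : ℂ_[p]) (c : ℝ), 0 < c ∧ c < 1 ∧
    (∀ k, ‖θ k‖ ≤ c ^ k) ∧ π ^ (p - 1) = -p ∧ θ 0 = 1 ∧ θ 1 = π ∧
    (∀ k, 2 ≤ k → ‖θ k‖ ≤ ‖π‖ ^ 2) ∧ ∀ s, 0 < s → ∀ t : ℂ_[p], t ^ p ^ s = t →
      (∏ i ∈ Finset.range s, ∑' k, θ k * (t ^ p ^ i) ^ k) ^ p = 1 := by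
  have hp : p.Prime := Fact.out
  have hp0 := hp.ne_zero
  have hp1 : (1 : ℝ) < p := by exact_mod_cast hp.one_lt
  have hpi : (0 : ℝ) < (p : ℝ)⁻¹ := by positivity
  have hpi1 : (p : ℝ)⁻¹ < 1 := inv_lt_one_of_one_lt₀ hp1
  have hq : 0 < p - 1 := Nat.sub_pos_of_lt hp.one_lt
  have hpK : (p : ℂ_[p]) ≠ 0 := by exact_mod_cast hp0
  have hnp : ‖(p : ℂ_[p])‖ = (p : ℝ)⁻¹ := by rw [norm_nat, Padic.norm_p]
  obtain ⟨π, hπ⟩ := IsAlgClosed.exists_pow_nat_eq (-(p : ℂ_[p])) hq
  have hρ : ‖π‖ ^ (p - 1) = (p : ℝ)⁻¹ := by rw [← norm_pow, hπ, norm_neg, hnp]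
  have hρ0 : 0 < ‖π‖ := norm_pos_iff.2 fun h => by
    rw [h, zero_pow hq.ne'] at hπ
    exact hpK (neg_eq_zero.1 hπ.symm)
  have hρ1 : ‖π‖ < 1 := (pow_lt_one_iff_of_nonneg hρ0.le hq.ne').1 (hρ ▸ hpi1)
  have hfac : ∀ n, n ≠ 0 → ‖π‖ ^ (n - 1) ≤ ‖(n.factorial : ℂ_[p])‖ := fun n hn => by
    rw [norm_nat]
    exact norm_fact hρ0.le hρ1.le le_rfl hρ.le hn
  have hpp : p * p ≠ 0 := mul_ne_zero hp0 hp0
  have hppK : ((p * p : ℕ) : ℂ_[p]) ≠ 0 := by exact_mod_cast hpp
  obtain ⟨c, hc0, hc⟩ : ∃ c : ℝ, 0 < c ∧ c ^ (p * p) = ‖π‖ :=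
    ⟨‖π‖ ^ ((p * p : ℕ) : ℝ)⁻¹, Real.rpow_pos_of_pos hρ0 _, Real.rpow_inv_natCast_pow hρ0.le hpp⟩
  have hc1 : c < 1 := (pow_lt_one_iff_of_nonneg hc0.le hpp).1 (hc ▸ hρ1)
  have hρc : ‖π‖ ≤ c := hc ▸ pow_le_of_le_one hc0.le hc1.le hpp
  obtain ⟨E, hE, hEb⟩ := artin_hasse' (p := p)
  obtain ⟨B, hB⟩ := exists_sol (g := C (-((p * p : ℕ) : ℂ_[p])⁻¹) * G ℂ_[p] p)
    (by rw [coeff_C_mul, G_zero hp0, mul_zero])
  have hBb := hB.bound (M := (p : ℝ) * p) (by nlinarith) fun n => by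
    rw [coeff_C_mul, norm_mul, norm_neg, norm_inv, Nat.cast_mul, norm_mul, hnp, ← mul_inv, inv_inv]
    exact mul_le_of_le_one_right (by positivity) (norm_G p n)
  -- the two factors
  have ha : ∀ i, ‖coeff i (rescale π E)‖ ≤ ‖π‖ ^ i := fun i => by
    rw [coeff_rescale, norm_mul, norm_pow]
    exact mul_le_of_le_one_right (by positivity) (hEb i)
  have hb : ∀ n, n ≠ 0 → ‖π‖ ^ (p * p * n) * ‖coeff n B‖ ≤ ‖π‖ ^ (n + 1) := fun n hn => by
    have h1 : ‖π‖ ^ (n - 1) * ‖coeff n B‖ ≤ ((p : ℝ) * p) ^ n :=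
      (mul_le_mul_of_nonneg_right (hfac n hn) (norm_nonneg _)).trans (hBb n)
    have h2 : ‖π‖ ^ ((p - 1) * (2 * n)) * ((p : ℝ) * p) ^ n = 1 := by
      rw [pow_mul, hρ, pow_mul, ← mul_pow, sq, ← mul_inv, inv_mul_cancel₀ (by positivity), one_pow]
    have h3 : n + 1 + (p - 1) * (2 * n) + (n - 1) ≤ p * p * n := by
      obtain ⟨q, e⟩ := Nat.exists_eq_add_of_le' hp.two_le
      obtain ⟨m, e'⟩ := Nat.exists_eq_add_of_le' (Nat.pos_of_ne_zero hn)
      rw [show p - 1 = q + 1 by omega, show n - 1 = m by omega, e, e']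
      nlinarith only [Nat.zero_le (q * q * m), Nat.zero_le (q * m), Nat.zero_le (q * q)]
    calc ‖π‖ ^ (p * p * n) * ‖coeff n B‖
        ≤ ‖π‖ ^ (n + 1 + (p - 1) * (2 * n) + (n - 1)) * ‖coeff n B‖ :=
          mul_le_mul_of_nonneg_right (pow_le_pow_of_le_one hρ0.le hρ1.le h3) (norm_nonneg _)
      _ = ‖π‖ ^ (n + 1) * (‖π‖ ^ ((p - 1) * (2 * n)) * (‖π‖ ^ (n - 1) * ‖coeff n B‖)) := by ring
      _ ≤ ‖π‖ ^ (n + 1) * (‖π‖ ^ ((p - 1) * (2 * n)) * ((p : ℝ) * p) ^ n) := by gcongr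
      _ = _ := by rw [h2, mul_one]
  have hb' : ∀ j, ‖coeff j (rescale π (expand (p * p) hpp B))‖ ≤ c ^ j ∧
      (j ≠ 0 → ‖coeff j (rescale π (expand (p * p) hpp B))‖ ≤ ‖π‖ ^ 2) := fun j => by
    rw [coeff_rescale, coeff_expand, norm_mul, norm_pow]
    split_ifs with h
    · obtain ⟨n, rfl⟩ := h
      rw [Nat.mul_div_cancel_left _ (Nat.pos_of_ne_zero hpp)]
      rcases eq_or_ne n 0 with rfl | hn
      · simp [hB.2.1]
      · refine ⟨(hb n hn).trans ?_, fun _ => (hb n hn).trans ?_⟩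
        · rw [pow_mul, hc]
          exact pow_le_pow_of_le_one hρ0.le hρ1.le n.le_succ
        · exact pow_le_pow_of_le_one hρ0.le hρ1.le (by omega)
    · rw [norm_zero, mul_zero]
      exact ⟨by positivity, fun _ => by positivity⟩
  have hθ : Sol (C π * X - C (p * π) * X ^ p)
      (rescale π E * rescale π (expand (p * p) hpp B)) := by
    have h1 := (hE.mul (hB.expand (p * p) hpp)).rescale π
    have h2 : G ℂ_[p] p + C ((p * p : ℕ) : ℂ_[p]) *
        expand (p * p) hpp (C (-((p * p : ℕ) : ℂ_[p])⁻¹) * G ℂ_[p] p) = X + X ^ p := by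
      have h3 := G_eq (K := ℂ_[p]) hp
      have h4 := congrArg (expand p hp0) h3
      rw [map_add, expand_X, ← expand_mul] at h4
      rw [map_mul, expand_C, ← mul_assoc, ← map_mul, mul_neg, mul_inv_cancel₀ hppK, map_neg, map_one]
      linear_combination h3 + h4
    have h5 : π ^ p = -(p * π) := by
      rw [← pow_sub_one_mul hp0 π, hπ, neg_mul]
    rwa [h2, map_add, map_pow, rescale_X, mul_pow, ← map_pow, h5, map_neg, neg_mul,
      ← sub_eq_add_neg, map_mul (rescale π)] at h1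
  have hθb : ∀ k, ‖coeff k (rescale π E * rescale π (expand (p * p) hpp B))‖ ≤ c ^ k := fun k =>
    norm_coeff_mul (by positivity) fun i j hij => by
      rw [← hij, pow_add]
      exact mul_le_mul ((ha i).trans (pow_le_pow_left₀ hρ0.le hρc i)) (hb' j).1 (norm_nonneg _)
        (by positivity)
  have hθ2 : ∀ k, 2 ≤ k →
      ‖coeff k (rescale π E * rescale π (expand (p * p) hpp B))‖ ≤ ‖π‖ ^ 2 := fun k hk =>
    norm_coeff_mul (by positivity) fun i j hij => by
      rcases eq_or_ne j 0 with rfl | hj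
      · exact (mul_le_mul ((ha i).trans (pow_le_pow_of_le_one hρ0.le hρ1.le (by omega)))
          ((hb' 0).1.trans (pow_zero c).le) (norm_nonneg _) (by positivity)).trans (mul_one _).le
      · exact (mul_le_mul ((ha i).trans (pow_le_one₀ hρ0.le hρ1.le)) ((hb' j).2 hj)
          (norm_nonneg _) zero_le_one).trans (one_mul _).le
  generalize rescale π E * rescale π (expand (p * p) hpp B) = θ at hθ hθb hθ2
  obtain ⟨Y, hY⟩ := exists_sol (g := C (p * π : ℂ_[p]) * X) (by simp)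
  have hYb : ∀ k, ‖coeff k Y‖ ≤ (p : ℝ)⁻¹ ^ k := fun k => by
    rcases eq_or_ne k 0 with rfl | hk
    · rw [hY.2.1, norm_one, pow_zero]
    have h1 := congrArg norm (hY.exp_coeff k)
    rw [norm_mul, norm_pow, norm_mul, hnp, mul_pow] at h1
    have h2 := (pow_le_pow_of_le_one hρ0.le hρ1.le (Nat.sub_le k 1)).trans (hfac k hk)
    refine le_of_mul_le_mul_left ?_ (pow_pos hρ0 k)
    rw [mul_comm _ (_ ^ k), ← h1]
    gcongr
  have key : θ ^ p * expand p hp0 Y = Y := by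
    refine Sol.unique ?_ hY
    have h1 := (hθ.pow p).mul (hY.expand p hp0)
    rw [map_mul (expand p hp0), expand_C, expand_X] at h1
    rwa [show C (p * π : ℂ_[p]) * X = C (p : ℂ_[p]) * (C π * X - C (p * π) * X ^ p) +
      C (p : ℂ_[p]) * (C (p * π) * X ^ p) by rw [map_mul]; ring]
  have sθ := sm_of_le hc0.le hc1 hθb
  have sY := sm_of_le hpi.le hpi1 hYb
  refine ⟨fun k => coeff k θ, π, c, hc0, hc1, hθb, hπ, hθ.2.1, ?_, hθ2, fun s hs t ht => ?_⟩
  · have h1 := hθ.step 1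
    rw [Finset.sum_range_one, hθ.2.1, map_sub, coeff_C_mul, coeff_C_mul, coeff_X_pow,
      if_neg hp.ne_one.symm, coeff_one_X] at h1
    simpa using h1
  · have ht1 : ‖t‖ ≤ 1 := by
      by_contra h
      have h1 := pow_lt_pow_right₀ (not_le.1 h) (Nat.one_lt_pow hs.ne' hp.one_lt)
      rw [pow_one, ← norm_pow, ht] at h1
      exact lt_irrefl _ h1
    have ht2 : ∀ i, ‖t ^ p ^ i‖ ≤ 1 := fun i => by
      rw [norm_pow]; exact pow_le_one₀ (norm_nonneg _) ht1
    have h1 : ∀ i, ev (t ^ p ^ i) θ ^ p * ev (t ^ p ^ (i + 1)) Y = ev (t ^ p ^ i) Y := fun i => by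
      rw [pow_succ, pow_mul, ← ev_expand Y hp0, ← ev_pow sθ (ht2 i),
        ← ev_mul (sθ.pow p) (sY.expand hp0) (ht2 i), key]
    have h2 : ∀ m, (∏ i ∈ Finset.range m, ev (t ^ p ^ i) θ) ^ p * ev (t ^ p ^ m) Y = ev t Y := by
      intro m
      induction m with
      | zero => simp
      | succ m ih => rw [Finset.prod_range_succ, mul_pow, mul_assoc, h1, ih]
    have h3 := h2 s
    rw [ht] at h3
    exact (mul_eq_right₀ (ev_ne_zero hpi.le hpi1 hY.2.1 hYb ht1)).1 h3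

end Pool.Agent.Lib.MP_557161_ag.DW
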